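import Mathlib
import Pool.Agent.H97.L.S8.H438R2.BR.Defs
import Pool.Agent.H97.L.S8.H789R2.FR.Defs
set_option autoImplicit false

/-! # Concatenation of coordinates, length of the first block (definitions) -/

namespace Pool.Agent.H438R2.BR

open MeasureTheory Set Complex
open scoped ENNReal RealInnerProductSpace
open Pool.Agent.H789R2.FR (E sg)

/-- concatenation of coordinates -/
noncomputable def J {k m : ℕ} (x : E k) (y : E m) : E (k + m) :=
  WithLp.toLp 2 (Fin.append (fun i => x i) (fun i => y i))

/-- length of the first block -/
noncomputable def bn (k m : ℕ) (z : E (k + m)) : ℝ :=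
  Real.sqrt (∑ i : Fin k, (z (Fin.castAdd m i)) ^ 2)

end Pool.Agent.H438R2.BR
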