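import Mathlib
import Pool.Agent.H97.L.S8.H438R2.BR.Defs
set_option autoImplicit false

/-! # Laplace representation of the Poisson integral: contour shift (helper409) -/

namespace Pool.Agent.H438R2.BR

open MeasureTheory Set Complex Filter
open scoped Topology

namespace T1

/-- the integrand -/
noncomputable def f (k : ℕ) (u : ℝ) (z : ℂ) : ℂ :=
  Complex.exp (I * u * z) * (1 - z ^ 2) ^ ((((k : ℝ) - 3) / 2 : ℝ) : ℂ)

theorem re_one_sub_sq (z : ℂ) : (1 - z ^ 2).re = 1 - z.re ^ 2 + z.im ^ 2 := by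
  simp only [sq, Complex.sub_re, Complex.one_re, Complex.mul_re]
  ring

theorem norm_exp_eq (u : ℝ) (z : ℂ) : ‖Complex.exp (I * u * z)‖ = Real.exp (-u * z.im) := by
  rw [Complex.norm_exp]
  congr 1
  simp only [Complex.mul_re, Complex.I_re, Complex.ofReal_re, Complex.I_im, Complex.ofReal_im,
    Complex.mul_im]
  ring

theorem f_diff (k : ℕ) (u : ℝ) {z : ℂ} (hz : 0 < (1 - z ^ 2).re) :
    DifferentiableAt ℂ (f k u) z := by
  unfold f
  refine DifferentiableAt.mul ?_ ?_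
  · fun_prop
  · refine DifferentiableAt.cpow ?_ (differentiableAt_const _) ?_
    · fun_prop
    · exact Complex.mem_slitPlane_iff.2 (Or.inl hz)

/-- the bound -/
noncomputable def G (k : ℕ) (u y : ℝ) : ℝ :=
  y ^ (-(1 / 2) : ℝ) * Real.exp (-u * y) + 4 ^ k * (y ^ (0 : ℝ) * Real.exp (-u * y)) +
    2 ^ k * (y ^ ((2 * k : ℕ) : ℝ) * Real.exp (-u * y))

theorem norm_pow_le (k : ℕ) (hk : 2 ≤ k) {z : ℂ} (h1 : |z.re| ≤ 1) (h2 : 0 < z.im) :
    ‖(1 - z ^ 2 : ℂ)‖ ^ (((k : ℝ) - 3) / 2) ≤ z.im ^ (-(1 / 2) : ℝ) + (2 + z.im ^ 2) ^ k := by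
  have hfac : (1 - z ^ 2 : ℂ) = (1 - z) * (1 + z) := by ring
  obtain ⟨h3, h4⟩ := abs_le.1 h1
  have im1 : z.im ≤ ‖(1 - z : ℂ)‖ := by
    have := Complex.abs_im_le_norm (1 - z)
    simp only [Complex.sub_im, Complex.one_im, zero_sub, abs_neg] at this
    exact (le_abs_self _).trans this
  have im2 : z.im ≤ ‖(1 + z : ℂ)‖ := by
    have := Complex.abs_im_le_norm (1 + z)
    simp only [Complex.add_im, Complex.one_im, zero_add] at this
    exact (le_abs_self _).trans this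
  have re1 : 1 - z.re ≤ ‖(1 - z : ℂ)‖ := by
    have := Complex.abs_re_le_norm (1 - z)
    simp only [Complex.sub_re, Complex.one_re] at this
    exact (le_abs_self _).trans this
  have re2 : 1 + z.re ≤ ‖(1 + z : ℂ)‖ := by
    have := Complex.abs_re_le_norm (1 + z)
    simp only [Complex.add_re, Complex.one_re] at this
    exact (le_abs_self _).trans this
  have hlow : z.im ≤ ‖(1 - z ^ 2 : ℂ)‖ := by
    rw [hfac, norm_mul]
    rcases le_or_gt 0 z.re with h | h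
    · nlinarith [norm_nonneg (1 - z)]
    · nlinarith [norm_nonneg (1 + z)]
  have hupp : ‖(1 - z ^ 2 : ℂ)‖ ≤ 2 + z.im ^ 2 := by
    have e1 : ‖(1 - z ^ 2 : ℂ)‖ ≤ 1 + ‖z‖ ^ 2 := by
      refine (norm_sub_le _ _).trans ?_
      rw [norm_one, norm_pow]
    have e2 : ‖z‖ ^ 2 = z.re ^ 2 + z.im ^ 2 := by
      rw [← Complex.normSq_eq_norm_sq, Complex.normSq_apply]
      ring
    have e3 : z.re ^ 2 ≤ 1 := by nlinarith
    linarith
  have hp1 : 0 ≤ z.im ^ (-(1 / 2) : ℝ) := Real.rpow_nonneg h2.le _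
  have hp2 : 0 ≤ (2 + z.im ^ 2) ^ k := by positivity
  rcases hk.eq_or_lt with h | h
  · subst h
    have e1 : (((2 : ℕ) : ℝ) - 3) / 2 = -(1 / 2) := by norm_num
    rw [e1]
    have := Real.rpow_le_rpow_of_nonpos h2 hlow (by norm_num : (-(1 / 2) : ℝ) ≤ 0)
    linarith
  · have hk3 : (3 : ℝ) ≤ k := by exact_mod_cast h
    have e1 : ‖(1 - z ^ 2 : ℂ)‖ ^ (((k : ℝ) - 3) / 2) ≤ (2 + z.im ^ 2) ^ (((k : ℝ) - 3) / 2) :=
      Real.rpow_le_rpow (norm_nonneg _) hupp (by linarith)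
    have e2 : (2 + z.im ^ 2) ^ (((k : ℝ) - 3) / 2) ≤ (2 + z.im ^ 2) ^ (k : ℝ) :=
      Real.rpow_le_rpow_of_exponent_le (by nlinarith [sq_nonneg z.im]) (by linarith)
    rw [Real.rpow_natCast] at e2
    linarith

theorem norm_f_le (k : ℕ) (hk : 2 ≤ k) (u : ℝ) {z : ℂ} (h1 : |z.re| ≤ 1) (h2 : 0 < z.im) :
    ‖f k u z‖ ≤ G k u z.im := by
  unfold f G
  rw [norm_mul, norm_exp_eq, Complex.norm_cpow_real]
  have e1 := norm_pow_le k hk h1 h2
  have e2 : (2 + z.im ^ 2) ^ k ≤ 4 ^ k + 2 ^ k * z.im ^ (2 * k) := by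
    have e3 := add_pow_le (by norm_num : (0 : ℝ) ≤ 2) (sq_nonneg z.im) k
    have e4 : (2 : ℝ) ^ (k - 1) ≤ 2 ^ k := pow_le_pow_right₀ (by norm_num) (by omega)
    calc (2 + z.im ^ 2) ^ k ≤ 2 ^ (k - 1) * (2 ^ k + (z.im ^ 2) ^ k) := e3
      _ ≤ 2 ^ k * (2 ^ k + (z.im ^ 2) ^ k) := by gcongr
      _ = 4 ^ k + 2 ^ k * z.im ^ (2 * k) := by
        rw [mul_add, ← mul_pow, pow_mul]
        norm_num
  have e3 : 0 < Real.exp (-u * z.im) := Real.exp_pos _
  rw [Real.rpow_zero, Real.rpow_natCast]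
  nlinarith

theorem G_int (k : ℕ) {u : ℝ} (hu : 0 < u) : IntegrableOn (G k u) (Ioi 0) := by
  have key : ∀ s : ℝ, -1 < s → IntegrableOn (fun y : ℝ => y ^ s * Real.exp (-u * y)) (Ioi 0) := by
    intro s hs
    have := integrableOn_rpow_mul_exp_neg_mul_rpow hs (by norm_num : (0 : ℝ) < 1) hu
    simpa using this
  unfold G
  exact ((key _ (by norm_num)).add ((key 0 (by norm_num)).const_mul _)).add
    ((key _ (by have : (0 : ℝ) ≤ ((2 * k : ℕ) : ℝ) := Nat.cast_nonneg _; linarith)).const_mul _)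

theorem G_tendsto (k : ℕ) {u : ℝ} (hu : 0 < u) : Tendsto (G k u) atTop (𝓝 0) := by
  have key : ∀ s : ℝ, Tendsto (fun y : ℝ => y ^ s * Real.exp (-u * y)) atTop (𝓝 0) :=
    fun s => tendsto_rpow_mul_exp_neg_mul_atTop_nhds_zero s u hu
  have := ((key (-(1 / 2))).add ((key 0).const_mul (4 ^ k))).add
    ((key ((2 * k : ℕ) : ℝ)).const_mul (2 ^ k))
  have e : (0 : ℝ) + 4 ^ k * 0 + 2 ^ k * 0 = 0 := by ring
  rw [e] at this
  exact this

theorem f_meas (k : ℕ) (u : ℝ) : Measurable (f k u) := by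
  unfold f
  refine Measurable.mul ?_ ?_
  · fun_prop
  · refine Measurable.pow ?_ measurable_const
    fun_prop

/-- left endpoints -/
noncomputable def b (n : ℕ) : ℝ := 1 - 1 / ((n : ℝ) + 2)

theorem b_pos (n : ℕ) : 0 < b n := by
  unfold b
  rw [sub_pos, div_lt_one (by positivity)]
  have : (0 : ℝ) ≤ n := Nat.cast_nonneg _
  linarith

theorem b_lt (n : ℕ) : b n < 1 := by
  unfold b
  have : 0 < 1 / ((n : ℝ) + 2) := by positivity
  linarith

theorem b_tendsto : Tendsto b atTop (𝓝 1) := by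
  have h1 : Tendsto (fun n : ℕ => 1 / ((n : ℝ) + 2)) atTop (𝓝 0) := by
    have h2 : Tendsto (fun n : ℕ => (n : ℝ) + 2) atTop atTop :=
      tendsto_atTop_add_const_right _ _ tendsto_natCast_atTop_atTop
    refine (tendsto_inv_atTop_zero.comp h2).congr fun n => ?_
    rw [Function.comp_apply, one_div]
  have h3 := h1.const_sub 1
  rw [sub_zero] at h3
  exact h3

theorem T_tendsto : Tendsto (fun n : ℕ => (n : ℝ) + 1) atTop atTop :=
  tendsto_atTop_add_const_right _ _ tendsto_natCast_atTop_atTop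

/-- the vertical sides -/
theorem vert (k : ℕ) (hk : 2 ≤ k) {u : ℝ} (hu : 0 < u) (c : ℕ → ℝ) (s : ℝ)
    (hc : ∀ n, |c n| ≤ 1) (hs : |s| ≤ 1) (hcs : Tendsto c atTop (𝓝 s)) :
    Tendsto (fun n : ℕ => ∫ y in (0 : ℝ)..((n : ℝ) + 1), f k u ((c n : ℂ) + (y : ℂ) * I)) atTop
      (𝓝 (∫ y in Ioi (0 : ℝ), f k u ((s : ℂ) + (y : ℂ) * I))) := by
  have e0 : ∀ n : ℕ, ∫ y in (0 : ℝ)..((n : ℝ) + 1), f k u ((c n : ℂ) + (y : ℂ) * I) =
      ∫ y in Ioi (0 : ℝ), (Ioc (0 : ℝ) ((n : ℝ) + 1)).indicator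
        (fun y : ℝ => f k u ((c n : ℂ) + (y : ℂ) * I)) y := by
    intro n
    rw [intervalIntegral.integral_of_le (by positivity),
      integral_indicator measurableSet_Ioc, Measure.restrict_restrict measurableSet_Ioc,
      Set.inter_eq_left.2 (fun y hy => hy.1)]
  simp only [e0]
  have hm : ∀ t : ℝ, Measurable (fun y : ℝ => f k u ((t : ℂ) + (y : ℂ) * I)) := by
    intro t
    refine (f_meas k u).comp ?_
    fun_prop
  have him : ∀ (t y : ℝ), ((t : ℂ) + (y : ℂ) * I).im = y := by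
    intro t y; simp
  have hre : ∀ (t y : ℝ), ((t : ℂ) + (y : ℂ) * I).re = t := by
    intro t y; simp
  refine tendsto_integral_of_dominated_convergence (G k u)
    (fun n => ((hm (c n)).indicator measurableSet_Ioc).aestronglyMeasurable) (G_int k hu) ?_ ?_
  · intro n
    filter_upwards [ae_restrict_mem measurableSet_Ioi] with y hy
    have hy' : (0 : ℝ) < y := hy
    have h1 := norm_f_le k hk u (z := (c n : ℂ) + (y : ℂ) * I) (by rw [hre]; exact hc n)
      (by rw [him]; exact hy')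
    rw [him] at h1
    refine (norm_indicator_le_norm_self _ _).trans h1
  · filter_upwards [ae_restrict_mem measurableSet_Ioi] with y hy
    have hy' : (0 : ℝ) < y := hy
    have h1 : Tendsto (fun n => f k u ((c n : ℂ) + (y : ℂ) * I)) atTop
        (𝓝 (f k u ((s : ℂ) + (y : ℂ) * I))) := by
      have h2 : ContinuousAt (f k u) ((s : ℂ) + (y : ℂ) * I) := by
        refine (f_diff k u ?_).continuousAt
        rw [re_one_sub_sq, him, hre]
        have := abs_le.1 hs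
        nlinarith
      refine h2.tendsto.comp ?_
      exact ((Complex.continuous_ofReal.tendsto s).comp hcs).add tendsto_const_nhds
    refine h1.congr' ?_
    filter_upwards [T_tendsto.eventually_ge_atTop y] with n hn
    rw [Set.indicator_of_mem (show y ∈ Ioc (0 : ℝ) ((n : ℝ) + 1) from ⟨hy', hn⟩)]

/-- the top side -/
theorem top (k : ℕ) (hk : 2 ≤ k) {u : ℝ} (hu : 0 < u) :
    Tendsto (fun n : ℕ => ∫ x in (-b n)..(b n), f k u ((x : ℂ) + (((n : ℝ) + 1 : ℝ) : ℂ) * I))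
      atTop (𝓝 0) := by
  rw [tendsto_zero_iff_norm_tendsto_zero]
  have h1 : Tendsto (fun n : ℕ => 2 * G k u ((n : ℝ) + 1)) atTop (𝓝 0) := by
    simpa using ((G_tendsto k hu).comp T_tendsto).const_mul 2
  refine squeeze_zero (fun _ => norm_nonneg _) (fun n => ?_) h1
  have hT : (0 : ℝ) < (n : ℝ) + 1 := by positivity
  have h2 : ∀ x ∈ uIoc (-b n) (b n),
      ‖f k u ((x : ℂ) + (((n : ℝ) + 1 : ℝ) : ℂ) * I)‖ ≤ G k u ((n : ℝ) + 1) := by
    intro x hx
    rw [uIoc_of_le (by linarith [b_pos n])] at hx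
    have him : ((x : ℂ) + (((n : ℝ) + 1 : ℝ) : ℂ) * I).im = (n : ℝ) + 1 := by simp
    have hre : ((x : ℂ) + (((n : ℝ) + 1 : ℝ) : ℂ) * I).re = x := by simp
    have h3 := norm_f_le k hk u (z := (x : ℂ) + (((n : ℝ) + 1 : ℝ) : ℂ) * I)
      (by rw [hre, abs_le]; have := b_lt n; constructor <;> linarith [hx.1, hx.2])
      (by rw [him]; exact hT)
    rwa [him] at h3
  refine (intervalIntegral.norm_integral_le_of_norm_le_const h2).trans ?_
  have h3 : |b n - -b n| ≤ 2 := by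
    rw [abs_of_pos (by linarith [b_pos n])]
    linarith [b_lt n]
  have h4 : 0 ≤ G k u ((n : ℝ) + 1) := by
    unfold G
    positivity
  nlinarith

theorem f_real (k : ℕ) (u : ℝ) {x : ℝ} (hx : x ∈ Ioo (-1 : ℝ) 1) :
    f k u (x : ℂ) = Complex.exp (((u * x : ℝ) : ℂ) * I) *
      (((1 - x ^ 2) ^ (((k : ℝ) - 3) / 2) : ℝ) : ℂ) := by
  unfold f
  have h1 : 0 ≤ 1 - x ^ 2 := by
    obtain ⟨h1, h2⟩ := hx
    nlinarith
  rw [Complex.ofReal_cpow h1]
  congr 1
  · congr 1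
    push_cast
    ring
  · push_cast
    rfl

theorem int_bottom (k : ℕ) (hk : 2 ≤ k) (u : ℝ) :
    IntegrableOn (fun x : ℝ => f k u (x : ℂ)) (Ioo (-1) 1) := by
  have i1 : IntegrableOn (fun x : ℝ => (1 - x) ^ (-(1 / 2) : ℝ)) (Ioo (-1) 1) := by
    have h := (intervalIntegral.intervalIntegrable_rpow' (a := 0) (b := 2)
      (r := -(1 / 2)) (by norm_num)).comp_sub_left 1
    have h' : IntervalIntegrable (fun x : ℝ => (1 - x) ^ (-(1 / 2) : ℝ)) volume 1 (-1) := by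
      have e1 : (1 : ℝ) - 0 = 1 := by norm_num
      have e2 : (1 : ℝ) - 2 = -1 := by norm_num
      rwa [e1, e2] at h
    have h2 := (intervalIntegrable_iff_integrableOn_Ioo_of_le (by norm_num : (-1 : ℝ) ≤ 1)).1
      h'.symm
    exact h2
  have i2 : IntegrableOn (fun x : ℝ => (1 + x) ^ (-(1 / 2) : ℝ)) (Ioo (-1) 1) := by
    have h := (intervalIntegral.intervalIntegrable_rpow' (a := 0) (b := 2)
      (r := -(1 / 2)) (by norm_num)).comp_add_left 1
    have h' : IntervalIntegrable (fun x : ℝ => (1 + x) ^ (-(1 / 2) : ℝ)) volume (-1) 1 := by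
      have e1 : (0 : ℝ) - 1 = -1 := by norm_num
      have e2 : (2 : ℝ) - 1 = 1 := by norm_num
      rwa [e1, e2] at h
    exact (intervalIntegrable_iff_integrableOn_Ioo_of_le (by norm_num : (-1 : ℝ) ≤ 1)).1 h'
  have i3 : IntegrableOn (fun _ : ℝ => (1 : ℝ)) (Ioo (-1) 1) := by
    rw [integrableOn_const_iff]
    right
    rw [Real.volume_Ioo]
    exact ENNReal.ofReal_lt_top
  refine Integrable.mono' ((i1.add i2).add i3)
    ((f_meas k u).comp Complex.measurable_ofReal).aestronglyMeasurable ?_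
  filter_upwards [ae_restrict_mem measurableSet_Ioo] with x hx
  obtain ⟨h1, h2⟩ := hx
  have h3 : 0 < 1 - x := by linarith
  have h4 : 0 < 1 + x := by linarith
  have p1 : 0 ≤ (1 - x) ^ (-(1 / 2) : ℝ) := Real.rpow_nonneg h3.le _
  have p2 : 0 ≤ (1 + x) ^ (-(1 / 2) : ℝ) := Real.rpow_nonneg h4.le _
  have hn : ‖f k u (x : ℂ)‖ = (1 - x ^ 2) ^ (((k : ℝ) - 3) / 2) := by
    unfold f
    rw [norm_mul, norm_exp_eq, Complex.norm_cpow_real]
    have e1 : (1 - (x : ℂ) ^ 2) = ((1 - x ^ 2 : ℝ) : ℂ) := by push_cast; rfl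
    rw [e1, Complex.norm_real, Real.norm_of_nonneg (by nlinarith), Complex.ofReal_im, mul_zero,
      Real.exp_zero, one_mul]
  rw [hn]
  simp only [Pi.add_apply]
  have hpos : 0 < 1 - x ^ 2 := by nlinarith
  rcases hk.eq_or_lt with h | h
  · subst h
    have e1 : (((2 : ℕ) : ℝ) - 3) / 2 = -(1 / 2) := by norm_num
    rw [e1]
    rcases le_or_gt 0 x with hx0 | hx0
    · have := Real.rpow_le_rpow_of_nonpos h3 (by nlinarith : 1 - x ≤ 1 - x ^ 2)
        (by norm_num : (-(1 / 2) : ℝ) ≤ 0)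
      linarith
    · have := Real.rpow_le_rpow_of_nonpos h4 (by nlinarith : 1 + x ≤ 1 - x ^ 2)
        (by norm_num : (-(1 / 2) : ℝ) ≤ 0)
      linarith
  · have hk3 : (3 : ℝ) ≤ k := by exact_mod_cast h
    have := Real.rpow_le_one hpos.le (by nlinarith [sq_nonneg x] : 1 - x ^ 2 ≤ 1)
      (by linarith : 0 ≤ ((k : ℝ) - 3) / 2)
    linarith

/-- the bottom side -/
theorem bottom (k : ℕ) (hk : 2 ≤ k) (u : ℝ) :
    Tendsto (fun n : ℕ => ∫ x in (-b n)..(b n), f k u ((x : ℂ) + ((0 : ℝ) : ℂ) * I))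
      atTop (𝓝 (Phi k u)) := by
  have h1 : Tendsto (fun n => -b n) atTop (𝓝 (-1)) := b_tendsto.neg
  have h2 := (aecover_Ioo_of_Ioc (μ := (volume : Measure ℝ)) h1
    b_tendsto).integral_tendsto_of_countably_generated (int_bottom k hk u)
  have h3 : ∫ x in Ioo (-1 : ℝ) 1, f k u (x : ℂ) = Phi k u := by
    unfold Phi
    exact setIntegral_congr_fun measurableSet_Ioo fun x hx => f_real k u hx
  rw [h3] at h2
  refine h2.congr fun n => ?_
  rw [intervalIntegral.integral_of_le (by linarith [b_pos n]),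
    Measure.restrict_restrict measurableSet_Ioc, Set.inter_eq_left.2]
  · refine setIntegral_congr_fun measurableSet_Ioc fun x _ => ?_
    simp
  · intro x hx
    exact ⟨by linarith [hx.1, b_lt n], by linarith [hx.2, b_lt n]⟩

theorem right_int (k : ℕ) (u : ℝ) :
    ∫ y in Ioi (0 : ℝ), f k u (((1 : ℝ) : ℂ) + (y : ℂ) * I) = Complex.exp ((u : ℂ) * I) * L k u := by
  unfold L
  rw [← integral_const_mul]
  refine setIntegral_congr_fun measurableSet_Ioi fun y _ => ?_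
  simp only [f, sy]
  have e1 : (1 - (((1 : ℝ) : ℂ) + (y : ℂ) * I) ^ 2) = (y : ℂ) ^ 2 - 2 * I * (y : ℂ) := by
    push_cast
    linear_combination (-(y : ℂ) ^ 2) * Complex.I_sq
  have e2 : Complex.exp (I * u * (((1 : ℝ) : ℂ) + (y : ℂ) * I)) =
      Complex.exp ((u : ℂ) * I) * ((Real.exp (-(u * y)) : ℝ) : ℂ) := by
    rw [Complex.ofReal_exp, ← Complex.exp_add]
    congr 1
    push_cast
    linear_combination ((u : ℂ) * (y : ℂ)) * Complex.I_sq
  rw [e1, e2]
  ring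

theorem left_int (k : ℕ) (u : ℝ) :
    ∫ y in Ioi (0 : ℝ), f k u (((-1 : ℝ) : ℂ) + (y : ℂ) * I) =
      Complex.exp (-((u : ℂ) * I)) * (starRingEnd ℂ) (L k u) := by
  unfold L
  rw [← integral_conj, ← integral_const_mul]
  refine setIntegral_congr_fun measurableSet_Ioi fun y hy => ?_
  have hy' : (0 : ℝ) < y := hy
  simp only [f, sy]
  have e1 : (1 - (((-1 : ℝ) : ℂ) + (y : ℂ) * I) ^ 2) =
      (starRingEnd ℂ) ((y : ℂ) ^ 2 - 2 * I * (y : ℂ)) := by
    simp only [map_sub, map_pow, map_mul, Complex.conj_ofReal, Complex.conj_I]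
    have h2 : (starRingEnd ℂ) 2 = 2 := by
      have : (2 : ℂ) = ((2 : ℝ) : ℂ) := by norm_cast
      rw [this, Complex.conj_ofReal]
    rw [h2]
    push_cast
    linear_combination (-(y : ℂ) ^ 2) * Complex.I_sq
  have e2 : Complex.exp (I * u * (((-1 : ℝ) : ℂ) + (y : ℂ) * I)) =
      Complex.exp (-((u : ℂ) * I)) * ((Real.exp (-(u * y)) : ℝ) : ℂ) := by
    rw [Complex.ofReal_exp, ← Complex.exp_add]
    congr 1
    push_cast
    linear_combination ((u : ℂ) * (y : ℂ)) * Complex.I_sq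
  have e3 : ((starRingEnd ℂ) ((y : ℂ) ^ 2 - 2 * I * (y : ℂ))) ^ ((((k : ℝ) - 3) / 2 : ℝ) : ℂ) =
      (starRingEnd ℂ) (((y : ℂ) ^ 2 - 2 * I * (y : ℂ)) ^ ((((k : ℝ) - 3) / 2 : ℝ) : ℂ)) := by
    have harg : (((starRingEnd ℂ) ((y : ℂ) ^ 2 - 2 * I * (y : ℂ)))).arg ≠ Real.pi := by
      intro h
      rw [Complex.arg_eq_pi_iff] at h
      have h3 := h.1
      have h4 : ((starRingEnd ℂ) ((y : ℂ) ^ 2 - 2 * I * (y : ℂ))).re = y ^ 2 := by
        rw [Complex.conj_re]
        simp [sq]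
      rw [h4] at h3
      nlinarith
    have h5 := Complex.cpow_conj ((starRingEnd ℂ) ((y : ℂ) ^ 2 - 2 * I * (y : ℂ)))
      ((((k : ℝ) - 3) / 2 : ℝ) : ℂ) harg
    rw [Complex.conj_ofReal, Complex.conj_conj] at h5
    exact h5
  rw [e1, e2, e3, map_mul, Complex.conj_ofReal]
  ring

end T1

open T1 in
theorem phi_laplace (k : ℕ) (hk : 2 ≤ k) (u : ℝ) (hu : 0 < u) :
    Phi k u = -I * Complex.exp ((u : ℂ) * I) * L k u +
      I * Complex.exp (-((u : ℂ) * I)) * (starRingEnd ℂ) (L k u) := by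
  have hA := bottom k hk u
  have hB := top k hk hu
  have hC := vert k hk hu b 1 (fun n => by rw [abs_of_pos (b_pos n)]; exact (b_lt n).le)
    (by norm_num) b_tendsto
  have hD := vert k hk hu (fun n => -b n) (-1)
    (fun n => by rw [abs_neg, abs_of_pos (b_pos n)]; exact (b_lt n).le) (by norm_num)
    b_tendsto.neg
  rw [right_int] at hC
  rw [left_int] at hD
  have key : ∀ n : ℕ, (∫ x in (-b n)..(b n), f k u ((x : ℂ) + ((0 : ℝ) : ℂ) * I)) =
      (∫ x in (-b n)..(b n), f k u ((x : ℂ) + (((n : ℝ) + 1 : ℝ) : ℂ) * I)) -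
        I * (∫ y in (0 : ℝ)..((n : ℝ) + 1), f k u ((b n : ℂ) + (y : ℂ) * I)) +
        I * (∫ y in (0 : ℝ)..((n : ℝ) + 1), f k u (((-b n : ℝ) : ℂ) + (y : ℂ) * I)) := by
    intro n
    have h1 := Complex.integral_boundary_rect_eq_zero_of_differentiableOn (f k u)
      (⟨-b n, 0⟩ : ℂ) (⟨b n, (n : ℝ) + 1⟩ : ℂ) (by
        intro z hz
        refine (f_diff k u ?_).differentiableWithinAt
        rw [re_one_sub_sq]
        have h2 : z.re ∈ uIcc (-b n) (b n) := hz.1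
        rw [uIcc_of_le (by linarith [b_pos n])] at h2
        have h3 := b_lt n
        have h4 := b_pos n
        nlinarith [h2.1, h2.2, sq_nonneg z.im])
    simp only [smul_eq_mul] at h1
    linear_combination h1
  have hE := ((hB.sub (hC.const_mul I)).add (hD.const_mul I)).congr fun n => (key n).symm
  have := tendsto_nhds_unique hA hE
  rw [this]
  ring

end Pool.Agent.H438R2.BR
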