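import Pool.Agent.H97.L.S8.H438R2.BR.Defs
set_option autoImplicit false

/-! # T2: weighted integral of the symbol (helper903) -/

namespace Pool.Agent.H438R2.BR

open MeasureTheory Set Complex

namespace T2

theorem pow_low {b c : ℝ} (hb : -1 < b) (hc : 0 < c) :
    ∫⁻ y in Ioc (0 : ℝ) c, ENNReal.ofReal (y ^ b) = ENNReal.ofReal (c ^ (b + 1) / (b + 1)) := by
  have hi : IntegrableOn (fun y : ℝ => y ^ b) (Ioc 0 c) :=
    (intervalIntegrable_iff_integrableOn_Ioc_of_le hc.le).1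
      (intervalIntegral.intervalIntegrable_rpow' hb)
  have hn : 0 ≤ᵐ[volume.restrict (Ioc (0 : ℝ) c)] fun y : ℝ => y ^ b := by
    filter_upwards [self_mem_ae_restrict measurableSet_Ioc] with y hy
    exact Real.rpow_nonneg hy.1.le _
  rw [← ofReal_integral_eq_lintegral_ofReal hi hn,
    ← intervalIntegral.integral_of_le hc.le, integral_rpow (Or.inl hb),
    Real.zero_rpow (by linarith), sub_zero]

theorem pow_high {b c : ℝ} (hb : b < -1) (hc : 0 < c) :
    ∫⁻ y in Ioi c, ENNReal.ofReal (y ^ b) = ENNReal.ofReal (-c ^ (b + 1) / (b + 1)) := by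
  have hi : IntegrableOn (fun y : ℝ => y ^ b) (Ioi c) := integrableOn_Ioi_rpow_of_lt hb hc
  have hn : 0 ≤ᵐ[volume.restrict (Ioi c)] fun y : ℝ => y ^ b := by
    filter_upwards [self_mem_ae_restrict measurableSet_Ioi] with y hy
    exact Real.rpow_nonneg (hc.trans hy).le _
  rw [← ofReal_integral_eq_lintegral_ofReal hi hn, integral_Ioi_rpow_of_lt hb hc]

theorem w_nonneg (k : ℕ) {A y : ℝ} (hA : 0 < A) (hy : 0 < y) : 0 ≤ w k A y := by
  unfold w
  have : 0 < 1 / (A * y) := by positivity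
  positivity

theorem w_le_one (k : ℕ) {A y : ℝ} (hA : 0 < A) (hy : 0 < y) : w k A y ≤ 1 := by
  unfold w
  have h1 : 0 < 1 / (A * y) := by positivity
  exact pow_le_one₀ (le_min zero_le_one h1.le) (min_le_left _ _)

theorem w_le_pow (k : ℕ) (hk : 1 ≤ k) {A y : ℝ} (hA : 0 < A) (hy : 0 < y) :
    w k A y ≤ A ^ (-((k : ℝ) - 1)) * y ^ (-((k : ℝ) - 1)) := by
  unfold w
  have h1 : 0 < 1 / (A * y) := by positivity
  calc (min 1 (1 / (A * y))) ^ (k - 1) ≤ (1 / (A * y)) ^ (k - 1) :=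
        pow_le_pow_left₀ (le_min zero_le_one h1.le) (min_le_right _ _) _
    _ = A ^ (-((k : ℝ) - 1)) * y ^ (-((k : ℝ) - 1)) := by
        rw [← Real.mul_rpow hA.le hy.le, Real.rpow_neg (by positivity), one_div, inv_pow]
        congr 1
        rw [← Real.rpow_natCast, Nat.cast_sub hk, Nat.cast_one]

theorem split_int (k : ℕ) (hk : 1 ≤ k) {b : ℝ} (hb : -1 < b) (hbk : b < k - 2) {A : ℝ}
    (hA : 0 < A) :
    ∫⁻ y in Ioi (0 : ℝ), ENNReal.ofReal (y ^ b * w k A y) ≤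
      ENNReal.ofReal ((1 / (b + 1) + 1 / (k - 2 - b)) * A ^ (-(b + 1))) := by
  have hc : 0 < A⁻¹ := by positivity
  have hb1 : 0 < b + 1 := by linarith
  have hb2 : 0 < (k : ℝ) - 2 - b := by linarith
  have hU : Ioi (0 : ℝ) = Ioc 0 A⁻¹ ∪ Ioi A⁻¹ := (Ioc_union_Ioi_eq_Ioi hc.le).symm
  have h1 : ∫⁻ y in Ioc (0 : ℝ) A⁻¹, ENNReal.ofReal (y ^ b * w k A y) ≤
      ENNReal.ofReal (1 / (b + 1) * A ^ (-(b + 1))) := by
    calc _ ≤ ∫⁻ y in Ioc (0 : ℝ) A⁻¹, ENNReal.ofReal (y ^ b) := by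
          refine setLIntegral_mono' measurableSet_Ioc fun y hy => ?_
          refine ENNReal.ofReal_le_ofReal ?_
          exact mul_le_of_le_one_right (Real.rpow_nonneg hy.1.le _) (w_le_one k hA hy.1)
      _ = _ := by
          rw [pow_low hb hc, Real.inv_rpow hA.le, ← Real.rpow_neg hA.le]
          congr 1
          ring
  have h2 : ∫⁻ y in Ioi A⁻¹, ENNReal.ofReal (y ^ b * w k A y) ≤
      ENNReal.ofReal (1 / (k - 2 - b) * A ^ (-(b + 1))) := by
    calc _ ≤ ∫⁻ y in Ioi A⁻¹, ENNReal.ofReal (A ^ (-((k : ℝ) - 1))) *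
            ENNReal.ofReal (y ^ (b - (k - 1))) := by
          refine setLIntegral_mono' measurableSet_Ioi fun y hy => ?_
          have hy0 : 0 < y := hc.trans hy
          rw [← ENNReal.ofReal_mul (by positivity)]
          refine ENNReal.ofReal_le_ofReal ?_
          calc y ^ b * w k A y ≤ y ^ b * (A ^ (-((k : ℝ) - 1)) * y ^ (-((k : ℝ) - 1))) :=
                mul_le_mul_of_nonneg_left (w_le_pow k hk hA hy0) (Real.rpow_nonneg hy0.le _)
            _ = A ^ (-((k : ℝ) - 1)) * (y ^ b * y ^ (-((k : ℝ) - 1))) := by ring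
            _ = _ := by rw [← Real.rpow_add hy0]; rfl
      _ = _ := by
          rw [lintegral_const_mul' _ _ ENNReal.ofReal_ne_top, pow_high (by linarith) hc,
            ← ENNReal.ofReal_mul (by positivity)]
          congr 1
          rw [Real.inv_rpow hA.le, ← Real.rpow_neg hA.le]
          have h3 : A ^ (-((k : ℝ) - 1)) * A ^ (-(b - ((k : ℝ) - 1) + 1)) = A ^ (-(b + 1)) := by
            rw [← Real.rpow_add hA]
            congr 1
            ring
          have h4 : b - ((k : ℝ) - 1) + 1 = -((k : ℝ) - 2 - b) := by ring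
          rw [← h3, h4, neg_div_neg_eq]
          ring
  rw [hU, lintegral_union measurableSet_Ioi (by
    rw [Set.disjoint_left]
    intro y hy hy'
    exact absurd hy.2 (not_le.2 hy'))]
  refine (add_le_add h1 h2).trans ?_
  rw [← ENNReal.ofReal_add (by positivity) (by positivity)]
  refine ENNReal.ofReal_le_ofReal (le_of_eq ?_)
  ring

theorem norm_base {y : ℝ} (hy : 0 < y) :
    2 * y ≤ ‖(y : ℂ) ^ 2 - 2 * I * (y : ℂ)‖ ∧
      (y ≤ 1 → ‖(y : ℂ) ^ 2 - 2 * I * (y : ℂ)‖ ≤ 3 * y) ∧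
      (1 ≤ y → ‖(y : ℂ) ^ 2 - 2 * I * (y : ℂ)‖ ≤ 3 * y ^ 2) := by
  have h0 : ‖(y : ℂ) ^ 2 - 2 * I * (y : ℂ)‖ = Real.sqrt (y ^ 4 + 4 * y ^ 2) := by
    rw [Complex.norm_def, Complex.normSq_apply]
    congr 1
    have hre : ((y : ℂ) ^ 2 - 2 * I * (y : ℂ)).re = y ^ 2 := by
      simp [pow_two]
    have him : ((y : ℂ) ^ 2 - 2 * I * (y : ℂ)).im = -(2 * y) := by
      simp [pow_two]
    rw [hre, him]
    ring
  rw [h0]
  refine ⟨?_, ?_, ?_⟩
  · apply Real.le_sqrt_of_sq_le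
    nlinarith [sq_nonneg (y ^ 2)]
  · intro h1
    rw [Real.sqrt_le_left (by positivity)]
    nlinarith [mul_nonneg hy.le (sub_nonneg.2 h1), pow_pos hy 2, pow_pos hy 3,
      mul_nonneg (pow_pos hy 2).le (sub_nonneg.2 h1), mul_nonneg (pow_pos hy 3).le (sub_nonneg.2 h1)]
  · intro h1
    rw [Real.sqrt_le_left (by positivity)]
    have h2 : y ^ 2 ≤ y ^ 4 := by
      have : (1:ℝ) ≤ y ^ 2 := one_le_pow₀ h1
      nlinarith [pow_pos hy 2]
    nlinarith [pow_pos hy 4]

theorem norm_sy (k : ℕ) {y : ℝ} : ‖sy k y‖ =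
    ‖(y : ℂ) ^ 2 - 2 * I * (y : ℂ)‖ ^ (((k : ℝ) - 3) / 2) := by
  unfold sy
  exact Complex.norm_cpow_real _ _

theorem sy_two {y : ℝ} (hy : 0 < y) : ‖sy 2 y‖ ≤ y ^ (-(1 / 2) : ℝ) := by
  rw [norm_sy]
  have h1 := (norm_base hy).1
  have h2 : (((2 : ℕ) : ℝ) - 3) / 2 = -(1 / 2) := by norm_num
  rw [h2]
  exact Real.rpow_le_rpow_of_nonpos hy (by linarith) (by norm_num)

theorem sy_three (k : ℕ) (hk : 3 ≤ k) {y : ℝ} (hy : 0 < y) :
    ‖sy k y‖ ≤ 3 ^ (((k : ℝ) - 3) / 2) * (y ^ (((k : ℝ) - 3) / 2) + y ^ ((k : ℝ) - 3)) := by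
  rw [norm_sy]
  have hk' : (3 : ℝ) ≤ k := by exact_mod_cast hk
  have ha : 0 ≤ ((k : ℝ) - 3) / 2 := by linarith
  obtain ⟨_, h2, h3⟩ := norm_base hy
  rcases le_total y 1 with h | h
  · calc _ ≤ (3 * y) ^ (((k : ℝ) - 3) / 2) := Real.rpow_le_rpow (norm_nonneg _) (h2 h) ha
      _ = 3 ^ (((k : ℝ) - 3) / 2) * y ^ (((k : ℝ) - 3) / 2) :=
          Real.mul_rpow (by norm_num) hy.le
      _ ≤ _ := by
          refine mul_le_mul_of_nonneg_left ?_ (by positivity)
          exact le_add_of_nonneg_right (by positivity)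
  · calc _ ≤ (3 * y ^ 2) ^ (((k : ℝ) - 3) / 2) := Real.rpow_le_rpow (norm_nonneg _) (h3 h) ha
      _ = 3 ^ (((k : ℝ) - 3) / 2) * y ^ ((k : ℝ) - 3) := by
          rw [Real.mul_rpow (by norm_num) (by positivity), ← Real.rpow_natCast y 2,
            ← Real.rpow_mul hy.le]
          congr 2
          push_cast
          ring
      _ ≤ _ := by
          refine mul_le_mul_of_nonneg_left ?_ (by positivity)
          exact le_add_of_nonneg_left (by positivity)

end T2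

open T2 in
theorem sy_int (k : ℕ) (hk : 2 ≤ k) : ∃ C : ℝ, 0 < C ∧ ∀ A : ℝ, 1 ≤ A →
    ∫⁻ y in Ioi (0 : ℝ), ENNReal.ofReal (‖sy k y‖ * w k A y) ≤
      ENNReal.ofReal (C * A ^ (-(((k : ℝ) - 1) / 2))) := by
  rcases Nat.lt_or_ge 2 k with hk3 | hk2
  · have hk3 : 3 ≤ k := hk3
    have hk' : (3 : ℝ) ≤ k := by exact_mod_cast hk3
    set a : ℝ := ((k : ℝ) - 3) / 2 with ha
    have ha0 : 0 ≤ a := by rw [ha]; linarith
    set c1 : ℝ := 1 / (a + 1) + 1 / (k - 2 - a) with hc1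
    set c2 : ℝ := 1 / (((k : ℝ) - 3) + 1) + 1 / (k - 2 - ((k : ℝ) - 3)) with hc2
    have h1p : 0 < (k : ℝ) - 2 - a := by rw [ha]; linarith
    have h2p : 0 < (k : ℝ) - 2 - ((k : ℝ) - 3) := by linarith
    have h3p : 0 < ((k : ℝ) - 3) + 1 := by linarith
    have hc1p : 0 < c1 := by positivity
    have hc2p : 0 < c2 := by positivity
    refine ⟨3 ^ a * (c1 + c2), by positivity, ?_⟩
    intro A hA
    have hA0 : 0 < A := by linarith
    have hw : ∀ y ∈ Ioi (0 : ℝ), ENNReal.ofReal (‖sy k y‖ * w k A y) ≤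
        ENNReal.ofReal (3 ^ a) * (ENNReal.ofReal (y ^ a * w k A y) +
          ENNReal.ofReal (y ^ ((k : ℝ) - 3) * w k A y)) := by
      intro y hy
      have hy0 : 0 < y := hy
      have hwn := w_nonneg k hA0 hy0
      rw [← ENNReal.ofReal_add (by positivity) (by positivity),
        ← ENNReal.ofReal_mul (by positivity)]
      refine ENNReal.ofReal_le_ofReal ?_
      calc ‖sy k y‖ * w k A y ≤ (3 ^ a * (y ^ a + y ^ ((k : ℝ) - 3))) * w k A y :=
            mul_le_mul_of_nonneg_right (sy_three k hk3 hy0) hwn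
        _ = _ := by ring
    have hmw : Measurable fun y : ℝ => w k A y := by
      unfold w
      fun_prop
    have hm1 : Measurable fun y : ℝ => ENNReal.ofReal (y ^ a * w k A y) :=
      ((measurable_id.pow_const a).mul hmw).ennreal_ofReal
    calc ∫⁻ y in Ioi (0 : ℝ), ENNReal.ofReal (‖sy k y‖ * w k A y)
        ≤ ∫⁻ y in Ioi (0 : ℝ), ENNReal.ofReal (3 ^ a) * (ENNReal.ofReal (y ^ a * w k A y) +
          ENNReal.ofReal (y ^ ((k : ℝ) - 3) * w k A y)) :=
          setLIntegral_mono' measurableSet_Ioi hw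
      _ = ENNReal.ofReal (3 ^ a) * ((∫⁻ y in Ioi (0 : ℝ), ENNReal.ofReal (y ^ a * w k A y)) +
          ∫⁻ y in Ioi (0 : ℝ), ENNReal.ofReal (y ^ ((k : ℝ) - 3) * w k A y)) := by
          rw [lintegral_const_mul' _ _ ENNReal.ofReal_ne_top, lintegral_add_left hm1]
      _ ≤ ENNReal.ofReal (3 ^ a) * (ENNReal.ofReal (c1 * A ^ (-(a + 1))) +
          ENNReal.ofReal (c2 * A ^ (-(((k : ℝ) - 3) + 1)))) := by
          gcongr
          · exact split_int k (by omega) (by linarith) (by linarith) hA0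
          · exact split_int k (by omega) (by linarith) (by linarith) hA0
      _ ≤ ENNReal.ofReal (3 ^ a) * (ENNReal.ofReal (c1 * A ^ (-(((k : ℝ) - 1) / 2))) +
          ENNReal.ofReal (c2 * A ^ (-(((k : ℝ) - 1) / 2)))) := by
          gcongr
          · rw [ha]; linarith
          · linarith
      _ = _ := by
          rw [← ENNReal.ofReal_add (by positivity) (by positivity),
            ← ENNReal.ofReal_mul (by positivity)]
          congr 1
          ring
  · have hk2 : k = 2 := by omega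
    subst hk2
    refine ⟨4, by norm_num, ?_⟩
    intro A hA
    have hA0 : 0 < A := by linarith
    calc ∫⁻ y in Ioi (0 : ℝ), ENNReal.ofReal (‖sy 2 y‖ * w 2 A y)
        ≤ ∫⁻ y in Ioi (0 : ℝ), ENNReal.ofReal (y ^ (-(1 / 2) : ℝ) * w 2 A y) := by
          refine setLIntegral_mono' measurableSet_Ioi fun y hy => ?_
          exact ENNReal.ofReal_le_ofReal
            (mul_le_mul_of_nonneg_right (sy_two hy) (w_nonneg 2 hA0 hy))
      _ ≤ ENNReal.ofReal ((1 / (-(1 / 2) + 1) + 1 / (((2 : ℕ) : ℝ) - 2 - -(1 / 2))) *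
            A ^ (-(-(1 / 2) + 1) : ℝ)) :=
          split_int 2 (by norm_num) (by norm_num) (by norm_num) hA0
      _ = _ := by
          congr 2
          · norm_num
          · norm_num

end Pool.Agent.H438R2.BR
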