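import Mathlib
import Pool.Agent.H97.L.S8.H438R2.BR.Defs
import Pool.Agent.H97.L.S8.H438R2.BR.T10
import Pool.Agent.H97.L.S8.H789R2.FR.Sph
import Pool.Agent.H97.L.S8.Helper390.CovarioA
set_option autoImplicit false

/-! T7: the region where one of the variables is small (helper885).

For fixed `r` the profile is the Fourier transform of a radial function on the unit ball of `ℝ^m`
bounded by `M (1-|x|^2)^(-1/2)`. Splitting at distance `a` from the sphere, using the trivial bound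
for the part near the sphere and Plancherel for the rest, gives a weak type bound at every level. -/

namespace Pool.Agent.H438R2.BR

open MeasureTheory Set Complex
open scoped ENNReal RealInnerProductSpace FourierTransform
open Pool.Agent.H789R2.FR (E sg)

namespace T7

/-- the radial measure `r^(n-1) dr` -/
noncomputable def nu (n : ℕ) : Measure ℝ :=
  (volume.restrict (Ioi (0 : ℝ))).withDensity fun r => ENNReal.ofReal (r ^ (n - 1))

instance (n : ℕ) : SigmaFinite (nu n) := by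
  unfold nu
  exact SigmaFinite.withDensity_ofReal _

instance (n : ℕ) : IsFiniteMeasure (sg n) := Pool.Agent.H789R2.FR.sg_finite n

theorem lint_nu (n : ℕ) (f : ℝ → ℝ≥0∞) (hf : Measurable f) :
    ∫⁻ r, f r ∂(nu n) = ∫⁻ r in Ioi (0 : ℝ), ENNReal.ofReal (r ^ (n - 1)) * f r := by
  unfold nu
  rw [lintegral_withDensity_eq_lintegral_mul _ (by fun_prop) hf]
  rfl

theorem polar_map {n : ℕ} (hn : 0 < n) :
    Measure.map (fun q : E n × ℝ => q.2 • q.1) ((sg n).prod (nu n)) = (volume : Measure (E n)) := by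
  have hm : Measurable (fun q : E n × ℝ => q.2 • q.1) := measurable_snd.smul measurable_fst
  ext s hs
  rw [Measure.map_apply hm hs, Measure.prod_apply (hm hs), ← lintegral_indicator_one hs,
    Pool.Agent.H789R2.FR.polar hn _ (measurable_one.indicator hs)]
  refine lintegral_congr fun w => ?_
  rw [← lintegral_indicator_one (measurable_prodMk_left (hm hs)), lint_nu]
  · rfl
  · exact measurable_one.indicator (measurable_prodMk_left (hm hs))

theorem polar_int {n : ℕ} (hn : 0 < n) (F : E n → ℂ) (hF : Integrable F) :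
    ∫ x, F x = ∫ r in Ioi (0 : ℝ), ((r ^ (n - 1) : ℝ) : ℂ) * ∫ w, F (r • w) ∂(sg n) := by
  have hm : Measurable (fun q : E n × ℝ => q.2 • q.1) := measurable_snd.smul measurable_fst
  have h1 : Integrable (fun q : E n × ℝ => F (q.2 • q.1)) ((sg n).prod (nu n)) := by
    rw [← polar_map hn] at hF
    exact (integrable_map_measure hF.aestronglyMeasurable hm.aemeasurable).mp hF
  have h2 : ∫ x, F x = ∫ q, F (q.2 • q.1) ∂((sg n).prod (nu n)) := by
    conv_lhs => rw [← polar_map hn]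
    rw [integral_map hm.aemeasurable]
    rw [polar_map hn]
    exact hF.aestronglyMeasurable
  rw [h2, integral_prod_symm _ h1]
  unfold nu
  rw [integral_withDensity_eq_integral_toReal_smul (by fun_prop) (by simp)]
  refine setIntegral_congr_fun measurableSet_Ioi fun r hr => ?_
  simp only
  rw [ENNReal.toReal_ofReal (pow_nonneg (le_of_lt hr) _)]
  rfl

theorem sg_pos {n : ℕ} (hn : 0 < n) : 0 < (sg n).real univ := by
  rw [Measure.real, ENNReal.toReal_pos_iff]
  refine ⟨?_, measure_lt_top _ _⟩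
  rw [Pool.Agent.H789R2.FR.sg_apply MeasurableSet.univ, preimage_univ]
  exact (Pool.Agent.Helper36.SphMeas.toSphere_univ_ne_zero hn).bot_lt

theorem measurable_Phi (k : ℕ) : Measurable (Phi k) := by
  unfold Phi
  have : StronglyMeasurable (fun p : ℝ × ℝ => Complex.exp (((p.1 * p.2 : ℝ) : ℂ) * I) *
    (((1 - p.2 ^ 2) ^ (((k : ℝ) - 3) / 2) : ℝ) : ℂ)) := by
    apply Measurable.stronglyMeasurable
    fun_prop
  exact (this.integral_prod_right' (ν := volume.restrict (Ioo (-1 : ℝ) 1))).measurable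

/-- a uniform bound for `Phi` -/
theorem Phi_bound (k : ℕ) (hk : 2 ≤ k) : ∃ C : ℝ, 0 < C ∧ ∀ u : ℝ, 0 ≤ u → ‖Phi k u‖ ≤ C := by
  have hκ := sg_pos (n := k - 1) (by omega)
  have hs := sg_pos (n := k) (by omega)
  refine ⟨(sg k).real univ / (sg (k - 1)).real univ, by positivity, fun u hu => ?_⟩
  have : NeZero k := ⟨by omega⟩
  set x : E k := EuclideanSpace.single 0 u with hx
  have hxn : ‖x‖ = u := by rw [hx]; simp [abs_of_nonneg hu]
  have h := sphere_ft k hk x
  rw [hxn] at h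
  have h1 : ‖∫ v, Complex.exp (-((⟪x, v⟫ : ℝ) : ℂ) * I) ∂(sg k)‖ ≤ (sg k).real univ := by
    have := norm_integral_le_of_norm_le_const (μ := sg k) (C := 1)
      (f := fun v => Complex.exp (-((⟪x, v⟫ : ℝ) : ℂ) * I))
      (Filter.Eventually.of_forall fun v => by
        rw [← Complex.ofReal_neg, Complex.norm_exp_ofReal_mul_I])
    simpa using this
  rw [h, norm_mul, Complex.norm_real, Real.norm_of_nonneg hκ.le] at h1
  rw [le_div_iff₀ hκ]
  linarith

/-- the profile for a fixed value of the other variable -/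
noncomputable def fH (m : ℕ) (h : ℝ → ℂ) (t : ℝ) : ℂ :=
  ∫ θ in Q, h θ * ((Real.sin θ ^ (m - 1) : ℝ) : ℂ) * Phi m (t * Real.sin θ)

theorem measurable_fH (m : ℕ) (h : ℝ → ℂ) (hh : Measurable h) : Measurable (fH m h) := by
  unfold fH
  have : StronglyMeasurable (fun p : ℝ × ℝ => h p.2 * ((Real.sin p.2 ^ (m - 1) : ℝ) : ℂ) *
      Phi m (p.1 * Real.sin p.2)) := by
    apply Measurable.stronglyMeasurable
    have h1 : Measurable fun p : ℝ × ℝ => Phi m (p.1 * Real.sin p.2) :=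
      (measurable_Phi m).comp (measurable_fst.mul (Real.measurable_sin.comp measurable_snd))
    exact ((hh.comp measurable_snd).mul (by fun_prop)).mul h1
  exact (this.integral_prod_right' (ν := volume.restrict Q)).measurable


/-- radial profile of the density on the ball -/
noncomputable def gt (h : ℝ → ℂ) : ℝ → ℂ :=
  (Ioo (0 : ℝ) 1).indicator fun r => h (Real.arcsin r) / ((Real.cos (Real.arcsin r) : ℝ) : ℂ)

theorem measurable_gt (h : ℝ → ℂ) (hh : Measurable h) : Measurable (gt h) := by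
  unfold gt
  refine Measurable.indicator ?_ measurableSet_Ioo
  exact (hh.comp Real.continuous_arcsin.measurable).div
    (Complex.measurable_ofReal.comp (Real.measurable_cos.comp Real.continuous_arcsin.measurable))

theorem mQ : MeasurableSet Q := measurableSet_Ioo

theorem arcsin_mem {r : ℝ} (hr : r ∈ Ioo (0 : ℝ) 1) : Real.arcsin r ∈ Q :=
  ⟨Real.arcsin_pos.mpr hr.1, by
    have := Real.arcsin_lt_pi_div_two.mpr hr.2
    exact this⟩

theorem cos_pos_Q {θ : ℝ} (hθ : θ ∈ Q) : 0 < Real.cos θ :=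
  Real.cos_pos_of_mem_Ioo ⟨by linarith [hθ.1, Real.pi_pos], hθ.2⟩

theorem sin_pos_Q {θ : ℝ} (hθ : θ ∈ Q) : 0 < Real.sin θ :=
  Real.sin_pos_of_mem_Ioo ⟨hθ.1, by linarith [hθ.2, Real.pi_pos]⟩

theorem arcsin_sin_Q {θ : ℝ} (hθ : θ ∈ Q) : Real.arcsin (Real.sin θ) = θ :=
  Real.arcsin_sin (by linarith [hθ.1, Real.pi_pos]) hθ.2.le

theorem sin_image : Real.sin '' Q = Ioo (0 : ℝ) 1 := by
  ext r
  constructor
  · rintro ⟨θ, hθ, rfl⟩
    refine ⟨sin_pos_Q hθ, ?_⟩
    have h1 := cos_pos_Q hθ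
    have h2 := sin_pos_Q hθ
    nlinarith [Real.sin_sq_add_cos_sq θ]
  · intro hr
    exact ⟨Real.arcsin r, arcsin_mem hr, Real.sin_arcsin (by linarith [hr.1]) hr.2.le⟩

theorem sin_injOn : InjOn Real.sin Q := by
  intro x hx y hy hxy
  rw [← arcsin_sin_Q hx, ← arcsin_sin_Q hy, hxy]

theorem gt_sin (h : ℝ → ℂ) {θ : ℝ} (hθ : θ ∈ Q) :
    gt h (Real.sin θ) = h θ / ((Real.cos θ : ℝ) : ℂ) := by
  have : Real.sin θ ∈ Ioo (0 : ℝ) 1 := by rw [← sin_image]; exact ⟨θ, hθ, rfl⟩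
  unfold gt
  rw [indicator_of_mem this, arcsin_sin_Q hθ]

theorem norm_gt_le (h : ℝ → ℂ) (M a : ℝ) (hM : ∀ θ, ‖h θ‖ ≤ M) (ha : 0 < a)
    (h0 : ∀ θ ∈ Q, Real.cos θ ≤ a → h θ = 0) (r : ℝ) : ‖gt h r‖ ≤ M / a := by
  have hM0 : 0 ≤ M := (norm_nonneg _).trans (hM 0)
  by_cases hr : r ∈ Ioo (0 : ℝ) 1
  · unfold gt
    rw [indicator_of_mem hr, norm_div, Complex.norm_real]
    have hθ := arcsin_mem hr
    have hc := cos_pos_Q hθ
    rw [Real.norm_of_nonneg hc.le]
    by_cases hca : Real.cos (Real.arcsin r) ≤ a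
    · rw [h0 _ hθ hca]
      simp
      positivity
    · push Not at hca
      exact div_le_div₀ hM0 (hM _) ha hca.le
  · unfold gt
    rw [indicator_of_notMem hr]
    simp
    positivity

theorem gt_memLp (m : ℕ) (h : ℝ → ℂ) (hh : Measurable h) (M a : ℝ) (hM : ∀ θ, ‖h θ‖ ≤ M)
    (ha : 0 < a) (h0 : ∀ θ ∈ Q, Real.cos θ ≤ a → h θ = 0) (p : ℝ≥0∞) :
    MemLp (fun x : E m => gt h ‖x‖) p := by
  have hm : Measurable (fun x : E m => gt h ‖x‖) := (measurable_gt h hh).comp measurable_norm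
  have h1 : (fun x : E m => gt h ‖x‖) =
      (Metric.ball (0 : E m) 1).indicator (fun x : E m => gt h ‖x‖) := by
    funext x
    by_cases hx : x ∈ Metric.ball (0 : E m) 1
    · rw [indicator_of_mem hx]
    · rw [indicator_of_notMem hx]
      unfold gt
      rw [indicator_of_notMem]
      intro hx'
      exact hx (by simpa using hx'.2)
  rw [h1, memLp_indicator_iff_restrict measurableSet_ball]
  have : IsFiniteMeasure ((volume : Measure (E m)).restrict (Metric.ball (0 : E m) 1)) :=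
    ⟨by rw [Measure.restrict_apply_univ]; exact measure_ball_lt_top⟩
  exact MemLp.of_bound hm.aestronglyMeasurable (M / a)
    (Filter.Eventually.of_forall fun x => norm_gt_le h M a hM ha h0 _)

theorem ft (m : ℕ) (hm : 2 ≤ m) (h : ℝ → ℂ) (hh : Measurable h) (M a : ℝ)
    (hM : ∀ θ, ‖h θ‖ ≤ M) (ha : 0 < a) (h0 : ∀ θ ∈ Q, Real.cos θ ≤ a → h θ = 0) (ξ : E m) :
    𝓕 (fun x : E m => gt h ‖x‖) ξ =
      ((sg (m - 1)).real univ : ℂ) * fH m h (2 * Real.pi * ‖ξ‖) := by
  set κ : ℂ := ((sg (m - 1)).real univ : ℂ) with hκ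
  have hint : Integrable (fun x : E m => gt h ‖x‖) :=
    memLp_one_iff_integrable.mp (gt_memLp m h hh M a hM ha h0 1)
  rw [Real.fourier_eq', polar_int (by omega : 0 < m)]
  swap
  · have hc : Continuous fun v : E m => Complex.exp (((-2 * Real.pi * ⟪v, ξ⟫ : ℝ) : ℂ) * I) := by
      fun_prop
    refine hint.bdd_mul (c := 1) hc.aestronglyMeasurable ?_
    refine Filter.Eventually.of_forall fun v => ?_
    rw [Complex.norm_exp_ofReal_mul_I]
  have h1 : ∀ r ∈ Ioi (0 : ℝ), ((r ^ (m - 1) : ℝ) : ℂ) *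
      ∫ w, Complex.exp (((-2 * Real.pi * ⟪r • w, ξ⟫ : ℝ) : ℂ) * I) • gt h ‖r • w‖ ∂(sg m) =
      (Ioo (0 : ℝ) 1).indicator (fun r => ((r ^ (m - 1) : ℝ) : ℂ) * gt h r *
        (κ * Phi m (2 * Real.pi * ‖ξ‖ * r))) r := by
    intro r hr
    have hr' : (0 : ℝ) < r := hr
    have e1 : ∫ w, Complex.exp (((-2 * Real.pi * ⟪r • w, ξ⟫ : ℝ) : ℂ) * I) • gt h ‖r • w‖ ∂(sg m)
        = ∫ w, gt h r * Complex.exp (-((⟪(2 * Real.pi * r) • ξ, w⟫ : ℝ) : ℂ) * I) ∂(sg m) := by
      refine integral_congr_ae ?_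
      filter_upwards [Pool.Agent.H789R2.FR.sg_ae m] with w hw
      rw [norm_smul, hw, Real.norm_of_nonneg hr'.le, mul_one, smul_eq_mul, mul_comm]
      congr 2
      rw [real_inner_smul_left, real_inner_smul_left, real_inner_comm]
      push_cast
      ring
    rw [e1, integral_const_mul, sphere_ft m hm, norm_smul, Real.norm_of_nonneg (by positivity)]
    by_cases hr1 : r ∈ Ioo (0 : ℝ) 1
    · rw [indicator_of_mem hr1]
      have : 2 * Real.pi * r * ‖ξ‖ = 2 * Real.pi * ‖ξ‖ * r := by ring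
      rw [this]
      ring
    · rw [indicator_of_notMem hr1]
      have : gt h r = 0 := by unfold gt; rw [indicator_of_notMem hr1]
      rw [this]
      simp
  rw [setIntegral_congr_fun measurableSet_Ioi h1, setIntegral_indicator measurableSet_Ioo]
  have h2 : Ioi (0 : ℝ) ∩ Ioo (0 : ℝ) 1 = Real.sin '' Q := by
    rw [sin_image]
    ext r
    simp only [mem_inter_iff, mem_Ioi, mem_Ioo]
    tauto
  rw [h2, integral_image_eq_integral_abs_deriv_smul (f' := Real.cos) mQ
    (fun x _ => (Real.hasDerivAt_sin x).hasDerivWithinAt) sin_injOn]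
  unfold fH
  rw [← integral_const_mul]
  refine setIntegral_congr_fun mQ fun θ hθ => ?_
  have hc := cos_pos_Q hθ
  rw [gt_sin h hθ, abs_of_pos hc, Complex.real_smul]
  have hc' : ((Real.cos θ : ℝ) : ℂ) ≠ 0 := by exact_mod_cast hc.ne'
  field_simp


/-- integral of a radial function -/
theorem radial {m : ℕ} (hm : 0 < m) (f : ℝ → ℝ≥0∞) (hf : Measurable f) :
    ∫⁻ x : E m, f ‖x‖ = sg m univ * ∫⁻ r in Ioi (0 : ℝ), ENNReal.ofReal (r ^ (m - 1)) * f r := by
  rw [Pool.Agent.H789R2.FR.polar hm (fun x => f ‖x‖) (hf.comp measurable_norm)]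
  have : ∀ᵐ w ∂(sg m), (∫⁻ r in Ioi (0 : ℝ), ENNReal.ofReal (r ^ (m - 1)) * f ‖r • w‖) =
      ∫⁻ r in Ioi (0 : ℝ), ENNReal.ofReal (r ^ (m - 1)) * f r := by
    filter_upwards [Pool.Agent.H789R2.FR.sg_ae m] with w hw
    refine setLIntegral_congr_fun measurableSet_Ioi fun r hr => ?_
    have hr' : (0 : ℝ) < r := hr
    rw [norm_smul, hw, Real.norm_of_nonneg hr'.le, mul_one]
  rw [lintegral_congr_ae this, lintegral_const, mul_comm]

theorem l2 (m : ℕ) (hm : 2 ≤ m) (h : ℝ → ℂ) (hh : Measurable h) (M a : ℝ)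
    (hM : ∀ θ, ‖h θ‖ ≤ M) (ha : 0 < a) (h0 : ∀ θ ∈ Q, Real.cos θ ≤ a → h θ = 0) :
    ∫⁻ t in Ioi (0 : ℝ), ENNReal.ofReal (t ^ (m - 1)) * ENNReal.ofReal (‖fH m h t‖ ^ 2) ≤
      ENNReal.ofReal ((2 * Real.pi) ^ m / (sg (m - 1)).real univ ^ 2) *
        ∫⁻ θ in Q, ENNReal.ofReal (‖h θ‖ ^ 2 / Real.cos θ) := by
  have hκ := sg_pos (n := m - 1) (by omega)
  set κ : ℝ := (sg (m - 1)).real univ with hκd
  have hsg : (sg m) univ ≠ 0 := by
    intro h
    have := sg_pos (n := m) (by omega)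
    rw [Measure.real, h] at this
    simp at this
  have hsg' : (sg m) univ ≠ ⊤ := measure_ne_top _ _
  have hp1 := gt_memLp m h hh M a hM ha h0 1
  have hp2 := gt_memLp m h hh M a hM ha h0 2
  obtain ⟨hF, hpl⟩ := Pool.Agent.Helper390.Covario.plancherel (memLp_one_iff_integrable.mp hp1) hp2
  have hFm := measurable_fH m h hh
  -- Plancherel as an equality of lower integrals
  have hL : ∫⁻ ξ : E m, ENNReal.ofReal (‖𝓕 (fun x : E m => gt h ‖x‖) ξ‖ ^ 2) =
      ∫⁻ x : E m, ENNReal.ofReal (‖gt h ‖x‖‖ ^ 2) := by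
    rw [← ofReal_integral_eq_lintegral_ofReal, ← ofReal_integral_eq_lintegral_ofReal, hpl]
    · exact hp2.integrable_norm_pow (by norm_num)
    · exact Filter.Eventually.of_forall fun x => by positivity
    · exact hF.integrable_norm_pow (by norm_num)
    · exact Filter.Eventually.of_forall fun x => by positivity
  have hft : ∀ ξ : E m, ‖𝓕 (fun x : E m => gt h ‖x‖) ξ‖ ^ 2 =
      κ ^ 2 * ‖fH m h (2 * Real.pi * ‖ξ‖)‖ ^ 2 := by
    intro ξ
    rw [ft m hm h hh M a hM ha h0 ξ, norm_mul, Complex.norm_real, Real.norm_of_nonneg hκ.le,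
      mul_pow]
  simp only [hft] at hL
  rw [radial (by omega) (fun r => ENNReal.ofReal (κ ^ 2 * ‖fH m h (2 * Real.pi * r)‖ ^ 2))
    (by
      have : Measurable fun r : ℝ => fH m h (2 * Real.pi * r) :=
        hFm.comp (measurable_const.mul measurable_id)
      fun_prop),
    radial (by omega) (fun r => ENNReal.ofReal (‖gt h r‖ ^ 2)) (by
      have := measurable_gt h hh
      fun_prop), ENNReal.mul_right_inj hsg hsg'] at hL
  -- scaling
  have himg : (fun r : ℝ => 2 * Real.pi * r) '' Ioi (0 : ℝ) = Ioi (0 : ℝ) := by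
    ext t
    constructor
    · rintro ⟨r, hr, rfl⟩
      exact mul_pos Real.two_pi_pos hr
    · intro ht
      have ht' : (0 : ℝ) < t := ht
      refine ⟨t / (2 * Real.pi), div_pos ht' Real.two_pi_pos, ?_⟩
      have := Real.pi_ne_zero
      simp only
      field_simp
  have hsc : ∫⁻ t in Ioi (0 : ℝ), ENNReal.ofReal (t ^ (m - 1)) * ENNReal.ofReal (‖fH m h t‖ ^ 2) =
      ENNReal.ofReal ((2 * Real.pi) ^ m / κ ^ 2) * ∫⁻ r in Ioi (0 : ℝ), ENNReal.ofReal (r ^ (m - 1)) *
        ENNReal.ofReal (κ ^ 2 * ‖fH m h (2 * Real.pi * r)‖ ^ 2) := by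
    conv_lhs => rw [← himg]
    rw [lintegral_image_eq_lintegral_abs_deriv_mul (f' := fun _ => 2 * Real.pi) measurableSet_Ioi
      (fun x _ => by
        have := ((hasDerivAt_id x).const_mul (2 * Real.pi)).hasDerivWithinAt (s := Ioi (0 : ℝ))
        simpa using this)
      (fun x _ y _ hxy => by
        have h2 : 2 * Real.pi * x = 2 * Real.pi * y := hxy
        exact mul_left_cancel₀ Real.two_pi_pos.ne' h2)]
    rw [← lintegral_const_mul']
    · refine setLIntegral_congr_fun measurableSet_Ioi fun r hr => ?_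
      have hr' : (0 : ℝ) < r := hr
      have hpi := Real.two_pi_pos
      rw [abs_of_pos hpi, ← ENNReal.ofReal_mul (by positivity), ← ENNReal.ofReal_mul (by positivity),
        ← ENNReal.ofReal_mul (by positivity), ← ENNReal.ofReal_mul (by positivity)]
      congr 1
      obtain ⟨n, rfl⟩ : ∃ n, m = n + 1 := ⟨m - 1, by omega⟩
      simp only [Nat.add_sub_cancel]
      rw [mul_pow]
      field_simp
      ring
    · exact ENNReal.ofReal_ne_top
  rw [hsc, hL]
  refine mul_le_mul_right ?_ _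
  -- the right side
  have h3 : ∫⁻ r in Ioi (0 : ℝ), ENNReal.ofReal (r ^ (m - 1)) * ENNReal.ofReal (‖gt h r‖ ^ 2) =
      ∫⁻ r in Real.sin '' Q, ENNReal.ofReal (r ^ (m - 1)) * ENNReal.ofReal (‖gt h r‖ ^ 2) := by
    rw [sin_image]
    have : ∀ r ∈ Ioi (0 : ℝ), ENNReal.ofReal (r ^ (m - 1)) * ENNReal.ofReal (‖gt h r‖ ^ 2) =
        (Ioo (0 : ℝ) 1).indicator (fun r => ENNReal.ofReal (r ^ (m - 1)) *
          ENNReal.ofReal (‖gt h r‖ ^ 2)) r := by
      intro r _
      by_cases hr1 : r ∈ Ioo (0 : ℝ) 1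
      · rw [indicator_of_mem hr1]
      · rw [indicator_of_notMem hr1]
        have : gt h r = 0 := by unfold gt; rw [indicator_of_notMem hr1]
        rw [this]
        simp
    rw [setLIntegral_congr_fun measurableSet_Ioi this, setLIntegral_indicator measurableSet_Ioo]
    congr 2
    ext r
    simp only [mem_inter_iff, mem_Ioi, mem_Ioo]
    tauto
  rw [h3, lintegral_image_eq_lintegral_abs_deriv_mul (f' := Real.cos) mQ
    (fun x _ => (Real.hasDerivAt_sin x).hasDerivWithinAt) sin_injOn]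
  refine setLIntegral_mono' mQ fun θ hθ => ?_
  have hc := cos_pos_Q hθ
  have hs := sin_pos_Q hθ
  rw [gt_sin h hθ, abs_of_pos hc, ← ENNReal.ofReal_mul (by positivity),
    ← ENNReal.ofReal_mul (by positivity)]
  apply ENNReal.ofReal_le_ofReal
  rw [norm_div, Complex.norm_real, Real.norm_of_nonneg hc.le]
  have h5 : Real.sin θ ^ (m - 1) ≤ 1 := pow_le_one₀ hs.le (Real.sin_le_one θ)
  have h6 : Real.cos θ * (Real.sin θ ^ (m - 1) * (‖h θ‖ / Real.cos θ) ^ 2) =
      Real.sin θ ^ (m - 1) * (‖h θ‖ ^ 2 / Real.cos θ) := by field_simp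
  rw [h6]
  have h7 : 0 ≤ ‖h θ‖ ^ 2 / Real.cos θ := by positivity
  nlinarith

/-- trivial bound for the integrand -/
theorem integrand_le (m : ℕ) (Cm : ℝ) (hC : ∀ u : ℝ, 0 ≤ u → ‖Phi m u‖ ≤ Cm) (h : ℝ → ℂ) (M : ℝ)
    (hM : ∀ θ, ‖h θ‖ ≤ M) (t : ℝ) (ht : 0 ≤ t) {θ : ℝ} (hθ : θ ∈ Q) :
    ‖h θ * ((Real.sin θ ^ (m - 1) : ℝ) : ℂ) * Phi m (t * Real.sin θ)‖ ≤ Cm * M := by
  have hM0 : 0 ≤ M := (norm_nonneg _).trans (hM 0)
  have hs := sin_pos_Q hθ
  have h5 : Real.sin θ ^ (m - 1) ≤ 1 := pow_le_one₀ hs.le (Real.sin_le_one θ)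
  have h6 : 0 ≤ Real.sin θ ^ (m - 1) := by positivity
  rw [norm_mul, norm_mul, Complex.norm_real, Real.norm_of_nonneg h6]
  have h7 := hC (t * Real.sin θ) (by positivity)
  have h8 := hM θ
  have h9 : ‖h θ‖ * Real.sin θ ^ (m - 1) ≤ M * 1 :=
    mul_le_mul h8 h5 h6 hM0
  calc ‖h θ‖ * Real.sin θ ^ (m - 1) * ‖Phi m (t * Real.sin θ)‖ ≤ (M * 1) * Cm :=
        mul_le_mul h9 h7 (norm_nonneg _) (by positivity)
    _ = Cm * M := by ring

theorem finQ : volume Q < ⊤ := by unfold Q; exact measure_Ioo_lt_top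

theorem integrand_int (m : ℕ) (hm : 2 ≤ m) (h : ℝ → ℂ) (hh : Measurable h) (M : ℝ)
    (hM : ∀ θ, ‖h θ‖ ≤ M) (t : ℝ) (ht : 0 ≤ t) :
    IntegrableOn (fun θ => h θ * ((Real.sin θ ^ (m - 1) : ℝ) : ℂ) * Phi m (t * Real.sin θ)) Q := by
  obtain ⟨Cm, hCm, hC⟩ := Phi_bound m hm
  have : IsFiniteMeasure (volume.restrict Q) := ⟨by rw [Measure.restrict_apply_univ]; exact finQ⟩
  refine Integrable.of_bound (C := Cm * M) ?_ ?_
  · have h1 : Measurable fun θ : ℝ => Phi m (t * Real.sin θ) :=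
      (measurable_Phi m).comp (measurable_const.mul Real.measurable_sin)
    exact ((hh.mul (by fun_prop)).mul h1).aestronglyMeasurable
  · filter_upwards [ae_restrict_mem mQ] with θ hθ
    exact integrand_le m Cm hC h M hM t ht hθ

theorem cos_lower {θ : ℝ} (hθ : θ ∈ Q) : 2 / Real.pi * (Real.pi / 2 - θ) ≤ Real.cos θ := by
  have h1 := Real.mul_le_sin (x := Real.pi / 2 - θ) (by linarith [hθ.2]) (by linarith [hθ.1])
  rwa [Real.sin_pi_div_two_sub] at h1

/-- the part near the sphere -/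
theorem near (m : ℕ) (Cm : ℝ) (hCm : 0 < Cm) (hC : ∀ u : ℝ, 0 ≤ u → ‖Phi m u‖ ≤ Cm)
    (h : ℝ → ℂ) (M a : ℝ) (hM : ∀ θ, ‖h θ‖ ≤ M) (ha : 0 ≤ a)
    (h0 : ∀ θ ∈ Q, a < Real.cos θ → h θ = 0) (t : ℝ) (ht : 0 ≤ t) :
    ‖fH m h t‖ ≤ Cm * M * (Real.pi / 2 * a) := by
  have hM0 : 0 ≤ M := (norm_nonneg _).trans (hM 0)
  have hpi := Real.pi_pos
  unfold fH
  rw [← integral_indicator mQ]
  set f : ℝ → ℂ := Q.indicator
    (fun θ => h θ * ((Real.sin θ ^ (m - 1) : ℝ) : ℂ) * Phi m (t * Real.sin θ)) with hf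
  set S : Set ℝ := Icc (Real.pi / 2 - Real.pi / 2 * a) (Real.pi / 2) with hS
  have h1 : f = S.indicator f := by
    funext θ
    by_cases hθS : θ ∈ S
    · rw [indicator_of_mem hθS]
    · rw [indicator_of_notMem hθS, hf]
      by_cases hθ : θ ∈ Q
      · rw [indicator_of_mem hθ]
        rw [h0 θ hθ]
        · simp
        · have h2 := cos_lower hθ
          have h3 : θ < Real.pi / 2 - Real.pi / 2 * a := by
            by_contra hc
            push Not at hc
            exact hθS ⟨hc, hθ.2.le⟩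
          have h4 : 2 / Real.pi * (Real.pi / 2 * a) < 2 / Real.pi * (Real.pi / 2 - θ) := by
            apply mul_lt_mul_of_pos_left _ (by positivity)
            linarith
          have h5 : 2 / Real.pi * (Real.pi / 2 * a) = a := by field_simp
          linarith
      · rw [indicator_of_notMem hθ]
  rw [h1, integral_indicator measurableSet_Icc]
  have h2 : ‖∫ x in S, f x‖ ≤ (Cm * M) * volume.real S := by
    refine norm_setIntegral_le_of_norm_le_const measure_Icc_lt_top fun θ _ => ?_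
    rw [hf]
    by_cases hθ : θ ∈ Q
    · rw [indicator_of_mem hθ]
      exact integrand_le m Cm hC h M hM t ht hθ
    · rw [indicator_of_notMem hθ, norm_zero]
      positivity
  have h3 : volume.real S = Real.pi / 2 * a := by
    rw [hS, Real.volume_real_Icc_of_le (by
      have : 0 ≤ Real.pi / 2 * a := by positivity
      linarith)]
    ring
  rw [h3] at h2
  exact h2

theorem trivial_bound (m : ℕ) (Cm : ℝ) (hCm : 0 < Cm) (hC : ∀ u : ℝ, 0 ≤ u → ‖Phi m u‖ ≤ Cm)
    (h : ℝ → ℂ) (M : ℝ) (hM : ∀ θ, ‖h θ‖ ≤ M) (t : ℝ) (ht : 0 ≤ t) :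
    ‖fH m h t‖ ≤ Cm * M * (Real.pi / 2) := by
  have := near m Cm hCm hC h M 1 hM zero_le_one (fun θ _ h1 => absurd (Real.cos_le_one θ) (by linarith))
    t ht
  simpa using this

/-- integrability of the weight -/
theorem cosw (δ : ℝ) (hδ : 0 < δ) (hδ1 : δ ≤ 1) : ∃ D : ℝ, 0 < D ∧
    ∫⁻ θ in Q, ENNReal.ofReal (Real.cos θ ^ (δ - 1)) ≤ ENNReal.ofReal D := by
  have hpi := Real.pi_pos
  have h1 : IntervalIntegrable (fun θ : ℝ => (Real.pi / 2 - θ) ^ (δ - 1)) volume 0 (Real.pi / 2) := by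
    have h2 : IntervalIntegrable (fun x : ℝ => x ^ (δ - 1)) volume (Real.pi / 2) 0 :=
      intervalIntegral.intervalIntegrable_rpow' (by linarith)
    have h3 := h2.comp_sub_left (Real.pi / 2)
    simpa using h3
  have h2 : IntegrableOn (fun θ : ℝ => (2 / Real.pi) ^ (δ - 1) * (Real.pi / 2 - θ) ^ (δ - 1)) Q := by
    have h3 := (intervalIntegrable_iff_integrableOn_Ioo_of_le (by positivity)).mp h1
    exact h3.const_mul _
  refine ⟨(∫ θ in Q, (2 / Real.pi) ^ (δ - 1) * (Real.pi / 2 - θ) ^ (δ - 1)) + 1, ?_, ?_⟩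
  · have : 0 ≤ ∫ θ in Q, (2 / Real.pi) ^ (δ - 1) * (Real.pi / 2 - θ) ^ (δ - 1) := by
      refine setIntegral_nonneg mQ fun θ hθ => ?_
      have : 0 < Real.pi / 2 - θ := by linarith [hθ.2]
      positivity
    linarith
  · calc ∫⁻ θ in Q, ENNReal.ofReal (Real.cos θ ^ (δ - 1))
        ≤ ∫⁻ θ in Q, ENNReal.ofReal ((2 / Real.pi) ^ (δ - 1) * (Real.pi / 2 - θ) ^ (δ - 1)) := by
          refine setLIntegral_mono' mQ fun θ hθ => ENNReal.ofReal_le_ofReal ?_
          have h3 : 0 < Real.pi / 2 - θ := by linarith [hθ.2]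
          rw [← Real.mul_rpow (by positivity) h3.le]
          exact Real.rpow_le_rpow_of_nonpos (by positivity) (cos_lower hθ) (by linarith)
      _ = ENNReal.ofReal (∫ θ in Q, (2 / Real.pi) ^ (δ - 1) * (Real.pi / 2 - θ) ^ (δ - 1)) := by
          rw [ofReal_integral_eq_lintegral_ofReal h2]
          filter_upwards [ae_restrict_mem mQ] with θ hθ
          have : 0 < Real.pi / 2 - θ := by linarith [hθ.2]
          simp only [Pi.zero_apply]
          positivity
      _ ≤ _ := ENNReal.ofReal_le_ofReal (by linarith)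

theorem lint_pow (R s : ℝ) (hR : 0 < R) (hs : -1 < s) :
    ∫⁻ x in Ioo (0 : ℝ) R, ENNReal.ofReal (x ^ s) = ENNReal.ofReal (R ^ (s + 1) / (s + 1)) := by
  have h1 : IntervalIntegrable (fun x : ℝ => x ^ s) volume 0 R :=
    intervalIntegral.intervalIntegrable_rpow' hs
  have h2 := (intervalIntegrable_iff_integrableOn_Ioo_of_le hR.le).mp h1
  rw [← ofReal_integral_eq_lintegral_ofReal h2]
  · congr 1
    rw [← integral_Ioc_eq_integral_Ioo, ← intervalIntegral.integral_of_le hR.le,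
      integral_rpow (Or.inl hs), Real.zero_rpow (by linarith)]
    ring
  · filter_upwards [ae_restrict_mem measurableSet_Ioo] with x hx
    exact Real.rpow_nonneg hx.1.le _

theorem nu_ae (n : ℕ) : ∀ᵐ r ∂(nu n), 0 < r := by
  unfold nu
  have h1 : ∀ᵐ r ∂(volume.restrict (Ioi (0 : ℝ))), 0 < r := ae_restrict_mem measurableSet_Ioi
  exact (withDensity_absolutelyContinuous _ _).ae_le h1

/-- level sets -/
theorem level (m : ℕ) (hm : 2 ≤ m) (Cm : ℝ) (hCm : 0 < Cm)
    (hC : ∀ u : ℝ, 0 ≤ u → ‖Phi m u‖ ≤ Cm) (δ D : ℝ) (hδ : 0 < δ) (hD : 0 < D)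
    (hDi : ∫⁻ θ in Q, ENNReal.ofReal (Real.cos θ ^ (δ - 1)) ≤ ENNReal.ofReal D)
    (h : ℝ → ℂ) (hh : Measurable h) (M : ℝ) (hM0 : 0 < M)
    (hM : ∀ θ, ‖h θ‖ ≤ M) (α : ℝ) (hα : 0 < α) (hαR : α < Real.pi * Cm * M) :
    nu m {t | α < ‖fH m h t‖} ≤ ENNReal.ofReal (4 * ((2 * Real.pi) ^ m /
      (sg (m - 1)).real univ ^ 2) * D * M ^ 2 * (Real.pi * Cm * M) ^ δ * α ^ (-2 - δ)) := by
  have hpi := Real.pi_pos
  have hκ := sg_pos (n := m - 1) (by omega)
  set κ : ℝ := (sg (m - 1)).real univ with hκd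
  set R : ℝ := Real.pi * Cm * M with hR
  have hRpos : 0 < R := by positivity
  set a : ℝ := α / R with ha
  have hapos : 0 < a := by positivity
  set A : Set ℝ := {θ | a < Real.cos θ} with hA
  have hAm : MeasurableSet A := measurableSet_lt measurable_const Real.measurable_cos
  set h1 : ℝ → ℂ := A.indicator h with hh1
  set h2 : ℝ → ℂ := Aᶜ.indicator h with hh2
  have h1m : Measurable h1 := hh.indicator hAm
  have h2m : Measurable h2 := hh.indicator hAm.compl
  have h1b : ∀ θ, ‖h1 θ‖ ≤ M := fun θ => (norm_indicator_le_norm_self h θ).trans (hM θ)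
  have h2b : ∀ θ, ‖h2 θ‖ ≤ M := fun θ => (norm_indicator_le_norm_self h θ).trans (hM θ)
  have h10 : ∀ θ ∈ Q, Real.cos θ ≤ a → h1 θ = 0 := by
    intro θ _ hθ
    rw [hh1, indicator_of_notMem]
    intro hc
    exact absurd hθ (not_le.mpr hc)
  have h20 : ∀ θ ∈ Q, a < Real.cos θ → h2 θ = 0 := by
    intro θ _ hθ
    rw [hh2, indicator_of_notMem]
    intro hc
    exact hc hθ
  have hsum : ∀ t, 0 ≤ t → fH m h t = fH m h1 t + fH m h2 t := by
    intro t ht
    unfold fH
    rw [← integral_add (integrand_int m hm h1 h1m M h1b t ht) (integrand_int m hm h2 h2m M h2b t ht)]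
    refine setIntegral_congr_fun mQ fun θ _ => ?_
    have : h θ = h1 θ + h2 θ := by
      have := congrFun (indicator_self_add_compl A h) θ
      rw [← this]
      rfl
    rw [this]
    ring
  have hnear : ∀ t, 0 ≤ t → ‖fH m h2 t‖ ≤ α / 2 := by
    intro t ht
    have := near m Cm hCm hC h2 M a h2b hapos.le h20 t ht
    have e : Cm * M * (Real.pi / 2 * a) = α / 2 := by
      rw [ha, hR]
      field_simp
    rwa [e] at this
  have hsub : nu m {t | α < ‖fH m h t‖} ≤ nu m {t | ENNReal.ofReal ((α / 2) ^ 2) ≤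
      ENNReal.ofReal (‖fH m h1 t‖ ^ 2)} := by
    apply measure_mono_ae
    filter_upwards [nu_ae m] with t ht h3
    have h3' : α < ‖fH m h t‖ := h3
    show ENNReal.ofReal ((α / 2) ^ 2) ≤ ENNReal.ofReal (‖fH m h1 t‖ ^ 2)
    apply ENNReal.ofReal_le_ofReal
    rw [hsum t ht.le] at h3'
    have h4 := norm_add_le (fH m h1 t) (fH m h2 t)
    have h5 := hnear t ht.le
    have h6 : α / 2 ≤ ‖fH m h1 t‖ := by linarith
    exact pow_le_pow_left₀ (by positivity) h6 2
  have hF1 := measurable_fH m h1 h1m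
  have hmeas : Measurable fun t => ENNReal.ofReal (‖fH m h1 t‖ ^ 2) := by fun_prop
  have hcheb := meas_ge_le_lintegral_div (μ := nu m) hmeas.aemeasurable
    (ε := ENNReal.ofReal ((α / 2) ^ 2)) (by
      rw [Ne, ENNReal.ofReal_eq_zero, not_le]; positivity) ENNReal.ofReal_ne_top
  have hl2 := l2 m hm h1 h1m M a h1b hapos h10
  rw [← lint_nu m _ hmeas] at hl2
  have hfar : ∫⁻ θ in Q, ENNReal.ofReal (‖h1 θ‖ ^ 2 / Real.cos θ) ≤
      ENNReal.ofReal (M ^ 2 * a ^ (-δ) * D) := by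
    calc ∫⁻ θ in Q, ENNReal.ofReal (‖h1 θ‖ ^ 2 / Real.cos θ)
        ≤ ∫⁻ θ in Q, ENNReal.ofReal (M ^ 2 * a ^ (-δ)) * ENNReal.ofReal (Real.cos θ ^ (δ - 1)) := by
          refine setLIntegral_mono' mQ fun θ hθ => ?_
          rw [← ENNReal.ofReal_mul (by positivity)]
          apply ENNReal.ofReal_le_ofReal
          have hc := cos_pos_Q hθ
          by_cases hca : Real.cos θ ≤ a
          · rw [h10 θ hθ hca]
            simp
            positivity
          · push Not at hca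
            have e1 : Real.cos θ ^ (-δ) ≤ a ^ (-δ) :=
              Real.rpow_le_rpow_of_nonpos hapos hca.le (by linarith)
            have e2 : ‖h1 θ‖ ^ 2 ≤ M ^ 2 := pow_le_pow_left₀ (norm_nonneg _) (h1b θ) 2
            have e3 : (Real.cos θ)⁻¹ = Real.cos θ ^ (-δ) * Real.cos θ ^ (δ - 1) := by
              rw [← Real.rpow_add hc, ← Real.rpow_neg_one]
              congr 1
              ring
            rw [div_eq_mul_inv, e3]
            have e4 : 0 ≤ Real.cos θ ^ (δ - 1) := by positivity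
            have e5 : 0 ≤ Real.cos θ ^ (-δ) := by positivity
            calc ‖h1 θ‖ ^ 2 * (Real.cos θ ^ (-δ) * Real.cos θ ^ (δ - 1))
                ≤ M ^ 2 * (a ^ (-δ) * Real.cos θ ^ (δ - 1)) :=
                  mul_le_mul e2 (mul_le_mul_of_nonneg_right e1 e4) (by positivity) (by positivity)
              _ = _ := by ring
      _ = ENNReal.ofReal (M ^ 2 * a ^ (-δ)) * ∫⁻ θ in Q, ENNReal.ofReal (Real.cos θ ^ (δ - 1)) :=
          lintegral_const_mul' _ _ ENNReal.ofReal_ne_top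
      _ ≤ ENNReal.ofReal (M ^ 2 * a ^ (-δ)) * ENNReal.ofReal D := mul_le_mul_right hDi _
      _ = _ := by rw [← ENNReal.ofReal_mul (by positivity)]
  calc nu m {t | α < ‖fH m h t‖}
      ≤ (∫⁻ t, ENNReal.ofReal (‖fH m h1 t‖ ^ 2) ∂(nu m)) / ENNReal.ofReal ((α / 2) ^ 2) :=
        hsub.trans hcheb
    _ ≤ (ENNReal.ofReal ((2 * Real.pi) ^ m / κ ^ 2) * ENNReal.ofReal (M ^ 2 * a ^ (-δ) * D)) /
          ENNReal.ofReal ((α / 2) ^ 2) :=
        ENNReal.div_le_div_right (hl2.trans (mul_le_mul_right hfar _)) _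
    _ = _ := by
        rw [← ENNReal.ofReal_mul (by positivity), ← ENNReal.ofReal_div_of_pos (by positivity)]
        congr 1
        have e1 : a ^ (-δ) = R ^ δ * α ^ (-δ) := by
          rw [ha, Real.div_rpow hα.le hRpos.le, Real.rpow_neg hRpos.le, div_inv_eq_mul, mul_comm]
        have e2 : α ^ (-2 - δ) = α ^ (-δ) / α ^ 2 := by
          rw [show (-2 - δ : ℝ) = -δ - ((2 : ℕ) : ℝ) by push_cast; ring,
            Real.rpow_sub_natCast hα.ne']
        rw [e1, e2]
        field_simp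
        norm_num

/-- the one variable bound -/
theorem one_var (m : ℕ) (hm : 2 ≤ m) (p : ℝ) (hp : 2 < p) : ∃ C : ℝ, 0 < C ∧
    ∀ (h : ℝ → ℂ) (M : ℝ), Measurable h → (∀ θ, ‖h θ‖ ≤ M) →
    ∫⁻ t in Ioi (0 : ℝ), ENNReal.ofReal (‖fH m h t‖ ^ p * t ^ (m - 1)) ≤
      ENNReal.ofReal (C * M ^ p) := by
  have hpi := Real.pi_pos
  have hκ := sg_pos (n := m - 1) (by omega)
  set κ : ℝ := (sg (m - 1)).real univ with hκd
  obtain ⟨Cm, hCm, hC⟩ := Phi_bound m hm
  set δ : ℝ := min ((p - 2) / 2) 1 with hδd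
  have hδ : 0 < δ := lt_min (by linarith) one_pos
  have hδ1 : δ ≤ 1 := min_le_right _ _
  have hδp : δ < p - 2 := lt_of_le_of_lt (min_le_left _ _) (by linarith)
  obtain ⟨D, hD, hDi⟩ := cosw δ hδ hδ1
  set K1 : ℝ := 4 * ((2 * Real.pi) ^ m / κ ^ 2) * D with hK1
  have hK1pos : 0 < K1 := by positivity
  have hq : 0 < p - 2 - δ := by linarith
  refine ⟨p * K1 / (p - 2 - δ) * (Real.pi * Cm) ^ (p - 2), by positivity, ?_⟩
  intro h M hh hM
  have hM0 : 0 ≤ M := (norm_nonneg _).trans (hM 0)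
  have hFm := measurable_fH m h hh
  have hmeas : Measurable fun t => ENNReal.ofReal (‖fH m h t‖ ^ p) := by fun_prop
  have e0 : ∫⁻ t in Ioi (0 : ℝ), ENNReal.ofReal (‖fH m h t‖ ^ p * t ^ (m - 1)) =
      ∫⁻ t, ENNReal.ofReal (‖fH m h t‖ ^ p) ∂(nu m) := by
    rw [lint_nu m _ hmeas]
    refine setLIntegral_congr_fun measurableSet_Ioi fun t ht => ?_
    have ht' : (0 : ℝ) < t := ht
    rw [mul_comm, ENNReal.ofReal_mul (by positivity)]
  rw [e0]
  rcases hM0.eq_or_lt with hMz | hMpos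
  · have : ∀ t, fH m h t = 0 := by
      intro t
      unfold fH
      have : ∀ θ, h θ = 0 := fun θ => norm_le_zero_iff.mp (by rw [hMz]; exact hM θ)
      simp [this]
    simp only [this, norm_zero]
    rw [Real.zero_rpow (by linarith)]
    simp
  rw [lintegral_rpow_eq_lintegral_meas_lt_mul (nu m)
    (Filter.Eventually.of_forall fun t => norm_nonneg _) hFm.norm.aemeasurable (by linarith : 0 < p)]
  set R : ℝ := Real.pi * Cm * M with hR
  have hRpos : 0 < R := by positivity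
  have e1 : ∫⁻ α in Ioi (0 : ℝ), nu m {t | α < ‖fH m h t‖} * ENNReal.ofReal (α ^ (p - 1)) ≤
      ∫⁻ α in Ioi (0 : ℝ), (Ioo (0 : ℝ) R).indicator (fun α =>
        ENNReal.ofReal (K1 * M ^ 2 * R ^ δ) * ENNReal.ofReal (α ^ (p - 3 - δ))) α := by
    refine setLIntegral_mono' measurableSet_Ioi fun α hα => ?_
    have hα' : (0 : ℝ) < α := hα
    by_cases hαR : α < R
    · rw [indicator_of_mem (show α ∈ Ioo (0 : ℝ) R from ⟨hα', hαR⟩)]
      have h1 := level m hm Cm hCm hC δ D hδ hD hDi h hh M hMpos hM α hα' hαR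
      calc nu m {t | α < ‖fH m h t‖} * ENNReal.ofReal (α ^ (p - 1))
          ≤ ENNReal.ofReal (K1 * M ^ 2 * R ^ δ * α ^ (-2 - δ)) * ENNReal.ofReal (α ^ (p - 1)) :=
            mul_le_mul_left h1 _
        _ = _ := by
            rw [← ENNReal.ofReal_mul (by positivity), ← ENNReal.ofReal_mul (by positivity)]
            congr 1
            rw [mul_assoc, ← Real.rpow_add hα']
            congr 2
            ring
    · have h1 : nu m {t | α < ‖fH m h t‖} = 0 := by
        rw [measure_eq_zero_iff_ae_notMem]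
        filter_upwards [nu_ae m] with t ht h2
        have h3 := trivial_bound m Cm hCm hC h M hM t ht.le
        have h4 : α < ‖fH m h t‖ := h2
        have h5 : Cm * M * (Real.pi / 2) ≤ R := by
          rw [hR]
          have : 0 < Cm * M * Real.pi := by positivity
          linarith
        linarith
      rw [h1, zero_mul]
      exact bot_le
  rw [setLIntegral_indicator measurableSet_Ioo] at e1
  have e2 : Ioi (0 : ℝ) ∩ Ioo 0 R = Ioo 0 R := by
    ext x; simp only [mem_inter_iff, mem_Ioi, mem_Ioo]; tauto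
  have e2' : Ioo 0 R ∩ Ioi (0 : ℝ) = Ioo 0 R := by
    ext x; simp only [mem_inter_iff, mem_Ioi, mem_Ioo]; tauto
  first
    | rw [e2] at e1
    | rw [e2'] at e1
  rw [lintegral_const_mul' _ _ ENNReal.ofReal_ne_top, lint_pow R (p - 3 - δ) hRpos (by linarith),
    ← ENNReal.ofReal_mul (by positivity)] at e1
  calc ENNReal.ofReal p * ∫⁻ α in Ioi (0 : ℝ), nu m {t | α < ‖fH m h t‖} * ENNReal.ofReal (α ^ (p - 1))
      ≤ ENNReal.ofReal p * ENNReal.ofReal (K1 * M ^ 2 * R ^ δ *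
        (R ^ (p - 3 - δ + 1) / (p - 3 - δ + 1))) := mul_le_mul_right e1 _
    _ = _ := by
        rw [← ENNReal.ofReal_mul (by linarith)]
        congr 1
        have f1 : R ^ δ * R ^ (p - 3 - δ + 1) = R ^ (p - 2) := by
          rw [← Real.rpow_add hRpos]; congr 1; ring
        have f2 : R ^ (p - 2) = (Real.pi * Cm) ^ (p - 2) * M ^ (p - 2) := by
          rw [hR, Real.mul_rpow (by positivity) hMpos.le]
        have f3 : M ^ p = M ^ 2 * M ^ (p - 2) := by
          rw [← Real.rpow_natCast M 2, ← Real.rpow_add hMpos]; congr 1; push_cast; ring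
        have f4 : p - 3 - δ + 1 = p - 2 - δ := by ring
        calc p * (K1 * M ^ 2 * R ^ δ * (R ^ (p - 3 - δ + 1) / (p - 3 - δ + 1)))
            = p * K1 / (p - 3 - δ + 1) * M ^ 2 * (R ^ δ * R ^ (p - 3 - δ + 1)) := by
              field_simp
          _ = _ := by
              rw [f1, f2, f3, f4]
              ring

end T7

theorem small_region (k m : ℕ) (hk : 2 ≤ k) (hm : 2 ≤ m) (p : ℝ) (hp : 2 < p) :
    ∃ C : ℝ, 0 < C ∧ ∀ (G : ℝ → ℂ) (M : ℝ), Measurable G → (∀ θ, ‖G θ‖ ≤ M) →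
    ∫⁻ r in Ioo (0 : ℝ) 1, ∫⁻ t in Ioi (0 : ℝ), ENNReal.ofReal (‖F k m G r t‖ ^ p *
      (r ^ (k - 1) * t ^ (m - 1))) ≤ ENNReal.ofReal (C * M ^ p) := by
  obtain ⟨Ck, hCk, hC⟩ := T7.Phi_bound k hk
  obtain ⟨C1, hC1, h1⟩ := T7.one_var m hm p hp
  refine ⟨C1 * Ck ^ p, by positivity, ?_⟩
  intro G M hG hM
  have hM0 : 0 ≤ M := (norm_nonneg _).trans (hM 0)
  have key : ∀ r ∈ Ioo (0 : ℝ) 1, ∫⁻ t in Ioi (0 : ℝ), ENNReal.ofReal (‖F k m G r t‖ ^ p *
      (r ^ (k - 1) * t ^ (m - 1))) ≤ ENNReal.ofReal (C1 * Ck ^ p * M ^ p) := by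
    intro r hr
    set h : ℝ → ℂ := Q.indicator fun θ =>
      G θ * ((Real.cos θ ^ (k - 1) : ℝ) : ℂ) * Phi k (r * Real.cos θ) with hh
    have hm' : Measurable h := by
      refine Measurable.indicator ?_ T7.mQ
      have h2 : Measurable fun θ : ℝ => Phi k (r * Real.cos θ) :=
        (T7.measurable_Phi k).comp (measurable_const.mul Real.measurable_cos)
      exact (hG.mul (by fun_prop)).mul h2
    have hb : ∀ θ, ‖h θ‖ ≤ Ck * M := by
      intro θ
      by_cases hθ : θ ∈ Q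
      · rw [hh, indicator_of_mem hθ]
        have hc := T7.cos_pos_Q hθ
        have h5 : Real.cos θ ^ (k - 1) ≤ 1 := pow_le_one₀ hc.le (Real.cos_le_one θ)
        have h6 : 0 ≤ Real.cos θ ^ (k - 1) := by positivity
        rw [norm_mul, norm_mul, Complex.norm_real, Real.norm_of_nonneg h6]
        have h7 := hC (r * Real.cos θ) (mul_nonneg hr.1.le hc.le)
        have h9 : ‖G θ‖ * Real.cos θ ^ (k - 1) ≤ M * 1 := mul_le_mul (hM θ) h5 h6 hM0
        calc ‖G θ‖ * Real.cos θ ^ (k - 1) * ‖Phi k (r * Real.cos θ)‖ ≤ (M * 1) * Ck :=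
              mul_le_mul h9 h7 (norm_nonneg _) (by positivity)
          _ = Ck * M := by ring
      · rw [hh, indicator_of_notMem hθ, norm_zero]
        positivity
    have hF : ∀ t, F k m G r t = T7.fH m h t := by
      intro t
      unfold F T7.fH
      refine setIntegral_congr_fun T7.mQ fun θ hθ => ?_
      rw [hh, indicator_of_mem hθ]
      push_cast
      ring
    calc ∫⁻ t in Ioi (0 : ℝ), ENNReal.ofReal (‖F k m G r t‖ ^ p * (r ^ (k - 1) * t ^ (m - 1)))
        ≤ ∫⁻ t in Ioi (0 : ℝ), ENNReal.ofReal (‖T7.fH m h t‖ ^ p * t ^ (m - 1)) := by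
          refine setLIntegral_mono' measurableSet_Ioi fun t ht => ENNReal.ofReal_le_ofReal ?_
          have ht' : (0 : ℝ) < t := ht
          rw [hF t]
          have h5 : r ^ (k - 1) ≤ 1 := pow_le_one₀ hr.1.le hr.2.le
          have h6 : r ^ (k - 1) * t ^ (m - 1) ≤ 1 * t ^ (m - 1) :=
            mul_le_mul_of_nonneg_right h5 (by positivity)
          rw [one_mul] at h6
          exact mul_le_mul_of_nonneg_left h6 (by positivity)
      _ ≤ ENNReal.ofReal (C1 * (Ck * M) ^ p) := h1 h (Ck * M) hm' hb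
      _ = _ := by
          rw [Real.mul_rpow hCk.le hM0]
          congr 1
          ring
  calc ∫⁻ r in Ioo (0 : ℝ) 1, ∫⁻ t in Ioi (0 : ℝ), ENNReal.ofReal (‖F k m G r t‖ ^ p *
      (r ^ (k - 1) * t ^ (m - 1)))
      ≤ ∫⁻ _ in Ioo (0 : ℝ) 1, ENNReal.ofReal (C1 * Ck ^ p * M ^ p) :=
        setLIntegral_mono' measurableSet_Ioo key
    _ = ENNReal.ofReal (C1 * Ck ^ p * M ^ p) := by
        rw [setLIntegral_const, Real.volume_Ioo]
        simp

end Pool.Agent.H438R2.BR
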